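import Pool.Agent.H60.ME.Low

/-! The criterion for moment bounds. -/

set_option autoImplicit false

open Complex MeasureTheory Finset Filter Topology
open Pool.Agent.R747.TL Pool.Agent.TH804.SS Pool.Agent.H60.WM Pool.Agent.H60.ZA

namespace Pool.Agent.H60.ME

lemma dyadic {f : ℝ → ℝ} (hf : Continuous f) (h0 : ∀ x, 0 ≤ f x) {L T0 C α : ℝ} (hT0 : 1 ≤ T0) (hL : L ≤ T0) (hα : 0 < α)
    (h : ∀ T : ℝ, T0 ≤ T → ∫ t in T..(2 * T), f t ≤ C * T ^ α) :
    ∃ C' : ℝ, ∀ T : ℝ, 1 ≤ T → L ≤ T → ∫ t in L..T, f t ≤ C' * T ^ α := by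
  have hC0 : 0 ≤ C := by
    have h1 := h T0 le_rfl
    have h2 : 0 ≤ ∫ t in T0..(2 * T0), f t := intervalIntegral.integral_nonneg (by linarith) fun y _ => h0 y
    have h3 : 0 < T0 ^ α := by positivity
    by_contra h4
    push Not at h4
    nlinarith
  have h2α : 1 < (2 : ℝ) ^ α := Real.one_lt_rpow (by norm_num) hα
  set A : ℝ := ∫ t in L..(2 * T0), f t with hA
  have hA0 : 0 ≤ A := intervalIntegral.integral_nonneg (by linarith) fun y _ => h0 y
  set B : ℝ := C / (2 ^ α - 1) with hB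
  have hB0 : 0 ≤ B := div_nonneg hC0 (by linarith)
  have hBC : B + C = 2 ^ α * B := by
    have : B * (2 ^ α - 1) = C := by rw [hB]; field_simp [show (2 : ℝ) ^ α - 1 ≠ 0 by linarith]
    linarith
  have key : ∀ n : ℕ, ∀ T : ℝ, L ≤ T → 0 < T → T ≤ 2 ^ (n + 1) * T0 → ∫ t in L..T, f t ≤ A + B * T ^ α := by
    intro n
    induction n with
    | zero =>
      intro T hLT hT hT2
      have h1 : ∫ t in L..T, f t ≤ A := int_mono_set hf h0 le_rfl hLT (by simpa using hT2)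
      have h2 : 0 ≤ B * T ^ α := by positivity
      linarith
    | succ n ih =>
      intro T hLT hT hT2
      rcases le_total T (2 * T0) with h5 | h5
      · have h1 : ∫ t in L..T, f t ≤ A := int_mono_set hf h0 le_rfl hLT h5
        have h2 : 0 ≤ B * T ^ α := by positivity
        linarith
      · have h6 := ih (T / 2) (by linarith) (by linarith) (by rw [pow_succ] at hT2; linarith)
        have h7 := h (T / 2) (by linarith)
        rw [show 2 * (T / 2) = T by ring] at h7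
        have h8 := intervalIntegral.integral_add_adjacent_intervals (μ := volume) (hf.intervalIntegrable L (T / 2))
          (hf.intervalIntegrable (T / 2) T)
        have h9 : 2 ^ α * (T / 2) ^ α = T ^ α := by
          rw [← Real.mul_rpow (by norm_num) (by linarith)]; congr 1; ring
        rw [← h8]
        calc _ ≤ A + B * (T / 2) ^ α + C * (T / 2) ^ α := add_le_add h6 h7
          _ = A + (B + C) * (T / 2) ^ α := by ring
          _ = A + B * (2 ^ α * (T / 2) ^ α) := by rw [hBC]; ring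
          _ = _ := by rw [h9]
  refine ⟨A + B, fun T hT1 hLT => ?_⟩
  obtain ⟨n, hn⟩ := exists_nat_ge (T / T0)
  have hn2 : T ≤ 2 ^ (n + 1) * T0 := by
    rw [div_le_iff₀ (by linarith)] at hn
    refine hn.trans (mul_le_mul_of_nonneg_right ?_ (by linarith))
    have : (n : ℝ) < 2 ^ n := by exact_mod_cast Nat.lt_two_pow_self
    rw [pow_succ]
    have h3 : (0 : ℝ) < 2 ^ n := by positivity
    linarith
  have h1 := key n T hLT (by linarith) hn2
  have h2 : 1 ≤ T ^ α := Real.one_le_rpow hT1 hα.le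
  nlinarith

/-- moment bound -/
def MB (f : ℝ → ℝ) (L κ : ℝ) : Prop := ∀ ε : ℝ, 0 < ε → ∃ C : ℝ, ∀ T : ℝ, 1 ≤ T → L ≤ T → ∫ t in L..T, f t ≤ C * T ^ (κ + ε)

/-- `MB` from a dyadic bound -/
lemma mb_of {f : ℝ → ℝ} (hf : Continuous f) (h0 : ∀ x, 0 ≤ f x) {L κ : ℝ} (hκ : 0 ≤ κ)
    (h : ∀ ε : ℝ, 0 < ε → ∃ C : ℝ, ∀ᶠ T : ℝ in atTop, ∫ t in T..(2 * T), f t ≤ C * T ^ (κ + ε)) : MB f L κ := by
  intro ε hε
  obtain ⟨C, hC⟩ := h ε hε
  obtain ⟨T1, hT1⟩ := eventually_atTop.1 hC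
  exact dyadic hf h0 (T0 := max T1 (max 1 L)) ((le_max_left _ _).trans (le_max_right _ _))
    ((le_max_right _ _).trans (le_max_right _ _)) (by linarith) fun T hT => hT1 T ((le_max_left _ _).trans hT)

/-- transfer of moment bounds -/
lemma mb_transfer {m : ℕ} {f : ℝ → ℝ} {g : Fin m → ℝ → ℝ} (hf : Continuous f) (h0 : ∀ x, 0 ≤ f x)
    (hg : ∀ j, Continuous (g j)) (hg0 : ∀ j, ∀ x, 0 ≤ g j x) {L L' κ : ℝ} (hκ : 1 ≤ κ)
    (h : ∀ ε : ℝ, 0 < ε → ε ≤ 1 / 2 → ∀ᶠ T : ℝ in atTop, ∫ t in T..(2 * T), f t ≤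
      T ^ ε * (1 + (2 * T - T) + ∑ j, ∫ t in (T - T ^ ε)..(2 * T + T ^ ε), g j t))
    (hm : ∀ j, MB (g j) L' κ) : MB f L κ := by
  refine mb_of hf h0 (by linarith) fun ε hε => ?_
  set e : ℝ := min (ε / 2) (1 / 2) with he
  have he0 : 0 < e := by positivity
  have he1 : e ≤ 1 / 2 := min_le_right _ _
  have he2 : e ≤ ε / 2 := min_le_left _ _
  choose C hC using fun j => hm j e he0
  refine ⟨2 + ∑ j, |C j| * 4 ^ (κ + e), ?_⟩
  filter_upwards [h e he0 he1, eventually_ge_atTop (64 : ℝ), eventually_ge_atTop (2 * L')] with T hT h64 hL'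
  have hT0 : 0 < T := by linarith
  have hT1 : 1 ≤ T := by linarith
  have hεT : T ^ e ≤ T / 2 := by
    have h1 : T ^ e ≤ T ^ (1 / 2 : ℝ) := Real.rpow_le_rpow_of_exponent_le hT1 he1
    have h2 : T ^ (1 / 2 : ℝ) * T ^ (1 / 2 : ℝ) = T := by rw [← Real.rpow_add hT0]; norm_num
    have h3 : 2 ≤ T ^ (1 / 2 : ℝ) := by
      by_contra h
      push Not at h
      have h5 : 0 ≤ T ^ (1 / 2 : ℝ) := by positivity
      nlinarith
    nlinarith [Real.rpow_nonneg hT0.le (1 / 2 : ℝ)]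
  have hTe0 : 0 < T ^ e := by positivity
  have hg1 : ∀ j, ∫ t in (T - T ^ e)..(2 * T + T ^ e), g j t ≤ |C j| * 4 ^ (κ + e) * T ^ (κ + e) := by
    intro j
    calc _ ≤ ∫ t in L'..(4 * T), g j t := int_mono_set (hg j) (hg0 j) (by linarith) (by linarith) (by linarith)
      _ ≤ C j * (4 * T) ^ (κ + e) := hC j (4 * T) (by linarith) (by linarith)
      _ ≤ |C j| * (4 * T) ^ (κ + e) := mul_le_mul_of_nonneg_right (le_abs_self _) (by positivity)
      _ = _ := by rw [Real.mul_rpow (by norm_num) hT0.le]; ring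
  have hsum : ∑ j, ∫ t in (T - T ^ e)..(2 * T + T ^ e), g j t ≤ (∑ j, |C j| * 4 ^ (κ + e)) * T ^ (κ + e) := by
    rw [Finset.sum_mul]
    exact Finset.sum_le_sum fun j _ => hg1 j
  have hTκ : 1 + (2 * T - T) ≤ 2 * T ^ (κ + e) := by
    have h1 : T ≤ T ^ (κ + e) := by
      calc T = T ^ (1 : ℝ) := (Real.rpow_one T).symm
        _ ≤ _ := Real.rpow_le_rpow_of_exponent_le hT1 (by linarith)
    linarith
  have hS0 : 0 ≤ ∑ j, |C j| * 4 ^ (κ + e) := Finset.sum_nonneg fun j _ => by positivity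
  calc ∫ t in T..(2 * T), f t ≤ _ := hT
    _ ≤ T ^ e * (2 * T ^ (κ + e) + (∑ j, |C j| * 4 ^ (κ + e)) * T ^ (κ + e)) :=
        mul_le_mul_of_nonneg_left (add_le_add hTκ hsum) hTe0.le
    _ = (2 + ∑ j, |C j| * 4 ^ (κ + e)) * (T ^ e * T ^ (κ + e)) := by ring
    _ ≤ (2 + ∑ j, |C j| * 4 ^ (κ + e)) * T ^ (κ + ε) := by
        refine mul_le_mul_of_nonneg_left ?_ (by linarith)
        rw [← Real.rpow_add hT0]
        exact Real.rpow_le_rpow_of_exponent_le hT1 (by linarith)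

theorem crit {m : ℕ} {μ : Fin m → Measure ℂ} {w : Fin m → ℂ → ℂ} {R : ℝ} (hR : 0 ≤ R)
    (hμ : ∀ j, Good (μ j) (w j) R) (hS : Slow μ w) (P : Polynomial ℂ) (hP : 0 < P.natDegree)
    {p κ : ℝ} (hp : 1 ≤ p) (hκ : 1 ≤ κ) :
    MB (fun t => ‖zl t‖ ^ (P.natDegree * p)) 0 κ ↔ ∀ j, MB (fun t => ‖Fl (μ j) (w j) P t‖ ^ p) (R + 1) κ := by
  have hp0 : 0 < p := by linarith
  have hf : Continuous fun y : ℝ => ‖zl y‖ ^ (P.natDegree * p) := zl_cont.norm.rpow_const fun _ => Or.inr (by positivity)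
  have hF : ∀ j, Continuous fun y : ℝ => ‖Fm (μ j) (w j) P R y‖ ^ p := fun j =>
    (Fm_cont (hμ j) P).norm.rpow_const fun _ => Or.inr hp0.le
  have hMB : ∀ j, MB (fun t => ‖Fl (μ j) (w j) P t‖ ^ p) (R + 1) κ ↔ MB (fun t => ‖Fm (μ j) (w j) P R t‖ ^ p) (R + 1) κ := by
    intro j
    unfold MB
    refine forall_congr' fun ε => forall_congr' fun _ => exists_congr fun C => forall_congr' fun T => forall_congr' fun _ =>
      forall_congr' fun hT => ?_
    rw [Fm_int le_rfl hT]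
  have hlarge : ∀ e : ℝ, 0 < e → e ≤ 1 / 2 → ∀ᶠ T : ℝ in atTop, R + 1 ≤ T - T ^ e := by
    intro e he0 he1
    filter_upwards [eventually_ge_atTop (64 : ℝ), eventually_ge_atTop (2 * (R + 1))] with T h64 hRT
    have hT0 : 0 < T := by linarith
    have h1 : T ^ e ≤ T ^ (1 / 2 : ℝ) := Real.rpow_le_rpow_of_exponent_le (by linarith) he1
    have h2 : T ^ (1 / 2 : ℝ) * T ^ (1 / 2 : ℝ) = T := by rw [← Real.rpow_add hT0]; norm_num
    have h3 : 2 ≤ T ^ (1 / 2 : ℝ) := by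
      by_contra h
      push Not at h
      have h5 : 0 ≤ T ^ (1 / 2 : ℝ) := by positivity
      nlinarith
    nlinarith [Real.rpow_nonneg hT0.le (1 / 2 : ℝ)]
  constructor
  · intro H j
    rw [hMB]
    refine mb_transfer (m := 1) (g := fun _ => fun y : ℝ => ‖zl y‖ ^ (P.natDegree * p)) (L' := 0) (hF j)
      (fun x => by positivity) (fun _ => hf) (fun _ x => by positivity) hκ (fun ε hε hε1 => ?_) (fun _ => H)
    filter_upwards [lower hR (hμ j) P hp hε hε1, eventually_ge_atTop (R + 1), eventually_ge_atTop (0 : ℝ)] with T hT hT1 hT2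
    have h := hT T (2 * T) le_rfl (by linarith) le_rfl
    rw [Fm_int hT1 (by linarith)]
    simpa using h
  · intro H
    refine mb_transfer (g := fun j => fun y : ℝ => ‖Fm (μ j) (w j) P R y‖ ^ p) (L' := R + 1) hf
      (fun x => by positivity) hF (fun _ x => by positivity) hκ (fun ε hε hε1 => ?_) (fun j => (hMB j).1 (H j))
    filter_upwards [upper hR hμ hS P hP hp hε hε1, hlarge ε hε hε1, eventually_ge_atTop (0 : ℝ)] with T hT hT1 hT2
    have h := hT T (2 * T) le_rfl (by linarith) le_rfl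
    have hTe : 0 ≤ T ^ ε := by positivity
    simp only [Fm_int (μ := μ _) (w := w _) (P := P) (p := p) hT1 (show R + 1 ≤ 2 * T + T ^ ε by linarith)]
    exact h

end Pool.Agent.H60.ME
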