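import Pool.Agent.H60.ME.Crit

/-! Horizontal averages with positive measures (with the support in `[0, X]` recorded). -/

set_option autoImplicit false

open Complex MeasureTheory Finset Filter Topology
open Pool.Agent.R747.TL Pool.Agent.TH804.SS Pool.Agent.H60.WM Pool.Agent.H60.ZA

namespace Pool.Agent.H60.ME

/-- positive measures on a horizontal segment -/
lemma hor_data' {μ : Measure ℝ} [IsFiniteMeasure μ] {X : ℝ} (hX : ∀ᵐ x ∂μ, 0 ≤ x ∧ x ≤ X)
    (h0 : ∀ δ : ℝ, 0 < δ → μ (Set.Iic δ) ≠ 0) (P : Polynomial ℂ) :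
    ∃ (ν : Measure ℂ), 0 ≤ X ∧ Good ν (fun _ => 1) X ∧ Slow (fun _ : Fin 1 => ν) (fun _ _ => 1) ∧
      FF ν (fun _ => 1) P = fun s => ∫ x, P.eval (riemannZeta (s + (x : ℂ))) ∂μ := by
  set ν : Measure ℂ := μ.map (fun x : ℝ => (x : ℂ)) with hν
  have hX0 : 0 ≤ X := by
    by_contra hX0
    push Not at hX0
    refine h0 1 one_pos ?_
    have h1 : ∀ᵐ x ∂μ, x ∉ Set.Iic (1 : ℝ) := by
      filter_upwards [hX] with x hx
      linarith [hx.1, hx.2]
    have h2 := ae_iff.1 h1
    simp only [Set.mem_Iic, not_not] at h2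
    exact h2
  have hmeas : Measurable (fun x : ℝ => (x : ℂ)) := by fun_prop
  have hgood : Good ν (fun _ => 1) X := by
    refine ⟨Measure.isFiniteMeasure_map _ _, ?_, ?_⟩
    · have : IsFiniteMeasure ν := Measure.isFiniteMeasure_map _ _
      exact integrable_const 1
    · have hms : MeasurableSet {z : ℂ | 0 ≤ z.re ∧ ‖z‖ ≤ X} := (KR_compact X).isClosed.measurableSet
      rw [hν, ae_map_iff hmeas.aemeasurable hms]
      filter_upwards [hX] with x hx
      refine ⟨by simpa using hx.1, ?_⟩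
      rw [norm_real, Real.norm_eq_abs, abs_of_nonneg hx.1]
      exact hx.2
  have hint : ∀ g : ℂ → ℂ, Measurable g → ∫ z, (1 : ℂ) * g z ∂ν = ∫ x, g (x : ℂ) ∂μ := by
    intro g hg
    have hsm : AEStronglyMeasurable (fun z => (1 : ℂ) * g z) (Measure.map (fun x : ℝ => (x : ℂ)) μ) :=
      (measurable_const.mul hg).aestronglyMeasurable
    rw [hν, integral_map hmeas.aemeasurable hsm]
    simp
  have hzm : ∀ s : ℂ, Measurable (fun z : ℂ => P.eval (riemannZeta (s + z))) := by
    intro s
    have h1 : Measurable riemannZeta := by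
      apply measurable_of_continuousOn_compl_singleton 1
      intro s hs
      exact (differentiableAt_riemannZeta hs).continuousAt.continuousWithinAt
    exact P.continuous.measurable.comp (h1.comp (by fun_prop))
  refine ⟨ν, hX0, hgood, ?_, ?_⟩
  · intro ε hε
    have hδ : 0 < ε / 2 := by positivity
    set c := (μ (Set.Iic (ε / 2))).toReal with hc
    have hc0 : 0 < c := ENNReal.toReal_pos (h0 _ hδ) (measure_ne_top _ _)
    have hev : ∀ᶠ ξ : ℝ in atTop, Real.exp (-(ε / 2 * ξ)) ≤ c := by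
      have h1 : Tendsto (fun ξ : ℝ => Real.exp (-(ε / 2 * ξ))) atTop (𝓝 0) :=
        Real.tendsto_exp_neg_atTop_nhds_zero.comp (tendsto_id.const_mul_atTop hδ)
      exact h1.eventually_le_const hc0
    obtain ⟨Λ, hΛ⟩ := eventually_atTop.1 (hev.and (eventually_ge_atTop (0 : ℝ)))
    refine ⟨Λ, fun ξ hξ => ?_⟩
    obtain ⟨h1, h2⟩ := hΛ ξ hξ
    rw [Fin.sum_univ_one]
    unfold tr
    rw [hint _ (by fun_prop)]
    have e1 : ∫ x : ℝ, cexp (-((ξ : ℂ) * (x : ℂ))) ∂μ = ((∫ x : ℝ, Real.exp (-(ξ * x)) ∂μ : ℝ) : ℂ) := by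
      rw [← integral_complex_ofReal]
      refine integral_congr_ae (Filter.Eventually.of_forall fun x => ?_)
      simp only
      push_cast
      rfl
    have hnn : 0 ≤ ∫ x : ℝ, Real.exp (-(ξ * x)) ∂μ := integral_nonneg fun x => (Real.exp_pos _).le
    rw [e1, norm_real, Real.norm_eq_abs, abs_of_nonneg hnn]
    have hi : Integrable (fun x : ℝ => Real.exp (-(ξ * x))) μ := by
      refine (integrable_const (1 : ℝ)).mono' (by fun_prop) ?_
      filter_upwards [hX] with x hx
      rw [Real.norm_eq_abs, abs_of_pos (Real.exp_pos _), Real.exp_le_one_iff]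
      nlinarith [hx.1]
    calc Real.exp (-(ε * ξ)) = Real.exp (-(ε / 2 * ξ)) * Real.exp (-(ε / 2 * ξ)) := by
          rw [← Real.exp_add]; congr 1; ring
      _ ≤ c * Real.exp (-(ε / 2 * ξ)) := mul_le_mul_of_nonneg_right h1 (Real.exp_pos _).le
      _ = ∫ x in Set.Iic (ε / 2), Real.exp (-(ε / 2 * ξ)) ∂μ := by
          rw [setIntegral_const, smul_eq_mul, hc, Measure.real]
      _ ≤ ∫ x in Set.Iic (ε / 2), Real.exp (-(ξ * x)) ∂μ := by
          refine setIntegral_mono_on (integrable_const _).integrableOn hi.integrableOn measurableSet_Iic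
            fun x hx => ?_
          apply Real.exp_le_exp.2
          have : x ≤ ε / 2 := hx
          nlinarith
      _ ≤ ∫ x : ℝ, Real.exp (-(ξ * x)) ∂μ :=
          setIntegral_le_integral hi (Filter.Eventually.of_forall fun x => (Real.exp_pos _).le)
  · funext s
    unfold FF
    exact hint _ (hzm s)

end Pool.Agent.H60.ME
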