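import Pool.Agent.H60.ME.Ptw

/-! Integration of the pointwise inequality and iteration. -/

set_option autoImplicit false

open Complex MeasureTheory Finset Filter Topology
open Pool.Agent.R747.TL Pool.Agent.TH804.SS Pool.Agent.H60.WM Pool.Agent.H60.ZA

namespace Pool.Agent.H60.ME

lemma W_eq {u : ℝ → ℝ} (hu : Continuous u) (V t : ℝ) : ∫ y in (t - V)..(t + V), u y =
    (∫ y in (0 : ℝ)..(t + V), u y) - ∫ y in (0 : ℝ)..(t - V), u y :=
  (intervalIntegral.integral_interval_sub_left (hu.intervalIntegrable _ _) (hu.intervalIntegrable _ _)).symm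

lemma prim_cont {u : ℝ → ℝ} (hu : Continuous u) : Continuous fun x : ℝ => ∫ y in (0 : ℝ)..x, u y :=
  intervalIntegral.continuous_primitive (fun _ _ => hu.intervalIntegrable _ _) 0

lemma W_cont {u : ℝ → ℝ} (hu : Continuous u) (V : ℝ) : Continuous fun t : ℝ => ∫ y in (t - V)..(t + V), u y := by
  have h1 := (prim_cont hu).comp (show Continuous fun t : ℝ => t + V by fun_prop)
  have h2 := (prim_cont hu).comp (show Continuous fun t : ℝ => t - V by fun_prop)
  refine (h1.sub h2).congr fun t => ?_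
  simpa using (W_eq hu V t).symm

lemma int_mono_set {u : ℝ → ℝ} (hu : Continuous u) (h0 : ∀ x, 0 ≤ u x) {a b c d : ℝ} (h1 : c ≤ a) (h2 : a ≤ b)
    (h3 : b ≤ d) : ∫ y in a..b, u y ≤ ∫ y in c..d, u y :=
  intervalIntegral.integral_mono_interval h1 h2 h3 (Eventually.of_forall fun x => h0 x) (hu.intervalIntegrable _ _)

lemma window {u : ℝ → ℝ} (hu : Continuous u) (h0 : ∀ x, 0 ≤ u x) {a b V : ℝ} (hV : 0 ≤ V) :
    ∫ t in a..b, (∫ y in (t - V)..(t + V), u y) ≤ 2 * V * ∫ y in (a - V)..(b + V), u y := by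
  set G : ℝ → ℝ := fun x => ∫ y in (0 : ℝ)..x, u y with hG
  have hGc : Continuous G := prim_cont hu
  have hGi : ∀ x y : ℝ, IntervalIntegrable G volume x y := fun x y => hGc.intervalIntegrable x y
  have hGd : ∀ x y : ℝ, G y - G x = ∫ z in x..y, u z := fun x y =>
    intervalIntegral.integral_interval_sub_left (hu.intervalIntegrable _ _) (hu.intervalIntegrable _ _)
  have hGm : ∀ x y : ℝ, x ≤ y → G x ≤ G y := fun x y hxy => by
    have := intervalIntegral.integral_nonneg (μ := volume) hxy fun z _ => h0 z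
    rw [← hGd] at this
    linarith
  have e1 : ∫ t in a..b, (∫ y in (t - V)..(t + V), u y) = (∫ t in a..b, G (t + V)) - ∫ t in a..b, G (t - V) := by
    rw [← intervalIntegral.integral_sub]
    · exact intervalIntegral.integral_congr fun t _ => W_eq hu V t
    · exact (hGc.comp (by fun_prop)).intervalIntegrable _ _
    · exact (hGc.comp (by fun_prop)).intervalIntegrable _ _
  rw [e1, intervalIntegral.integral_comp_add_right (fun t => G t), intervalIntegral.integral_comp_sub_right (fun t => G t)]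
  have e2 : (∫ t in (a + V)..(b + V), G t) - (∫ t in (a - V)..(b - V), G t) =
      (∫ t in (b - V)..(b + V), G t) - ∫ t in (a - V)..(a + V), G t := by
    have h1 := intervalIntegral.integral_add_adjacent_intervals (hGi (a - V) (a + V)) (hGi (a + V) (b + V))
    have h2 := intervalIntegral.integral_add_adjacent_intervals (hGi (a - V) (b - V)) (hGi (b - V) (b + V))
    linarith
  rw [e2]
  have e3 : ∫ t in (b - V)..(b + V), G t ≤ ∫ _t in (b - V)..(b + V), G (b + V) :=
    intervalIntegral.integral_mono_on (by linarith) (hGi _ _) (by simp) fun t ht => hGm _ _ ht.2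
  have e4 : ∫ _t in (a - V)..(a + V), G (a - V) ≤ ∫ t in (a - V)..(a + V), G t :=
    intervalIntegral.integral_mono_on (by linarith) (by simp) (hGi _ _) fun t ht => hGm _ _ ht.1
  rw [intervalIntegral.integral_const, smul_eq_mul] at e3 e4
  have e5 := hGd (a - V) (b + V)
  rw [← e5]
  nlinarith

/-- the averages on the line, made continuous -/
noncomputable def Fm (μ : Measure ℂ) (w : ℂ → ℂ) (P : Polynomial ℂ) (R : ℝ) (t : ℝ) : ℂ := Fl μ w P (max t (R + 1))

lemma Fm_cont {μ : Measure ℂ} {w : ℂ → ℂ} {R : ℝ} (hg : Good μ w R) (P : Polynomial ℂ) : Continuous (Fm μ w P R) := by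
  rw [continuous_iff_continuousAt]
  intro t
  have h1 : ContinuousAt (Fl μ w P) (max t (R + 1)) := Fl_cont hg P (lt_of_lt_of_le (by linarith) (le_max_right _ _))
  exact ContinuousAt.comp (f := fun t : ℝ => max t (R + 1)) h1 (by fun_prop)

lemma Fm_eq {μ : Measure ℂ} {w : ℂ → ℂ} {R : ℝ} {P : Polynomial ℂ} {t : ℝ} (h : R + 1 ≤ t) : Fm μ w P R t = Fl μ w P t := by
  unfold Fm; rw [max_eq_left h]

lemma Fm_int {μ : Measure ℂ} {w : ℂ → ℂ} {R : ℝ} {P : Polynomial ℂ} {p a b : ℝ} (ha : R + 1 ≤ a) (hb : R + 1 ≤ b) :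
    ∫ y in a..b, ‖Fm μ w P R y‖ ^ p = ∫ y in a..b, ‖Fl μ w P y‖ ^ p := by
  refine intervalIntegral.integral_congr fun t ht => ?_
  have : R + 1 ≤ t := (le_min ha hb).trans ht.1
  simp only [Fm_eq this]

lemma low_pow {k : ℕ} (hk : 0 < k) {x lam : ℝ} (hx : 0 ≤ x) (hl : 0 < lam) : x ^ (k - 1) ≤ lam * x ^ k + (lam⁻¹) ^ (k - 1) := by
  have h2 : 0 < lam⁻¹ := inv_pos.2 hl
  rcases le_total x lam⁻¹ with h | h
  · have h1 : x ^ (k - 1) ≤ (lam⁻¹) ^ (k - 1) := pow_le_pow_left₀ hx h _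
    have h3 : 0 ≤ lam * x ^ k := by positivity
    linarith
  · have h1 : 1 ≤ lam * x := by
      calc (1 : ℝ) = lam * lam⁻¹ := (mul_inv_cancel₀ hl.ne').symm
        _ ≤ lam * x := mul_le_mul_of_nonneg_left h hl.le
    have h3 : x ^ k = x * x ^ (k - 1) := by
      rw [← pow_succ']
      congr 1; omega
    have h4 : x ^ (k - 1) ≤ lam * x ^ k := by
      rw [h3, ← mul_assoc]
      exact le_mul_of_one_le_left (by positivity) h1
    have h5 : 0 ≤ (lam⁻¹) ^ (k - 1) := by positivity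
    linarith

theorem one_step {m : ℕ} {μ : Fin m → Measure ℂ} {w : Fin m → ℂ → ℂ} {R : ℝ} (hR : 0 ≤ R)
    (hμ : ∀ j, Good (μ j) (w j) R) (hS : Slow μ w) (P : Polynomial ℂ) (hP : 0 < P.natDegree)
    {p ε : ℝ} (hp : 1 ≤ p) (hε : 0 < ε) (hε1 : ε ≤ 1 / 2) : ∀ᶠ T : ℝ in atTop, ∀ a b V : ℝ, V = (4 * T) ^ ε →
      T / 2 ≤ a → a ≤ b → b ≤ 4 * T →
      ∫ t in a..b, ‖zl t‖ ^ (P.natDegree * p) ≤ 3 * V ^ (3 * P.natDegree) * (b - a) +
        2 * V ^ 2 * (∑ j, ∫ y in (a - V)..(b + V), ‖Fm (μ j) (w j) P R y‖ ^ p) +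
        2 / V * ∫ y in (a - V)..(b + V), ‖zl y‖ ^ (P.natDegree * p) := by
  set k := P.natDegree with hk
  have hk1 : (1 : ℝ) ≤ k := by exact_mod_cast hP
  have hp0 : 0 < p := by linarith
  obtain ⟨t0, ht0⟩ := eventually_atTop.1 (ptw hR hμ hS P hP hp hε hε1)
  filter_upwards [eventually_ge_atTop (2 * t0), eventually_ge_atTop (4 * (R + 1) + 64)] with T hT1 hT2
  intro a b V hV ha hab hb
  have hT0 : 0 < T := by linarith
  have hV1 : 1 ≤ V := by
    rw [hV]
    exact Real.one_le_rpow (by linarith) hε.le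
  have hV0 : 0 < V := by linarith
  have hf : Continuous fun y : ℝ => ‖zl y‖ ^ (k * p) := zl_cont.norm.rpow_const fun _ => Or.inr (by positivity)
  have hf0 : ∀ y : ℝ, 0 ≤ ‖zl y‖ ^ (k * p) := fun y => by positivity
  have hF : ∀ j, Continuous fun y : ℝ => ‖Fm (μ j) (w j) P R y‖ ^ p := fun j =>
    (Fm_cont (hμ j) P).norm.rpow_const fun _ => Or.inr hp0.le
  have hF0 : ∀ j, ∀ y : ℝ, 0 ≤ ‖Fm (μ j) (w j) P R y‖ ^ p := fun j y => by positivity
  have hg : Continuous fun y : ℝ => ‖zl y‖ ^ (((k : ℝ) - 1) * p) :=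
    zl_cont.norm.rpow_const fun _ => Or.inr (mul_nonneg (by linarith) hp0.le)
  set lam : ℝ := V⁻¹ ^ 3 with hlam
  have hl0 : 0 < lam := by positivity
  -- pointwise
  have key : ∀ t ∈ Set.Icc a b, ‖zl t‖ ^ (k * p) ≤ V * (1 + (∑ j, ∫ y in (t - V)..(t + V), ‖Fm (μ j) (w j) P R y‖ ^ p) +
      (lam * (∫ y in (t - V)..(t + V), ‖zl y‖ ^ (k * p)) + 2 * V * (lam⁻¹) ^ (k - 1))) := by
    intro t ht
    have htT : T / 2 ≤ t := ha.trans ht.1
    have ht4 : t ≤ 4 * T := ht.2.trans hb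
    have htp : 0 < t := by linarith
    have hte : t ^ ε ≤ V := by rw [hV]; exact Real.rpow_le_rpow htp.le ht4 hε.le
    have hte0 : 0 < t ^ ε := by positivity
    have hte2 : t ^ ε ≤ t / 4 := by
      have h1 : t ^ ε ≤ t ^ (1 / 2 : ℝ) := Real.rpow_le_rpow_of_exponent_le (by linarith) hε1
      have h2 : t ^ (1 / 2 : ℝ) * t ^ (1 / 2 : ℝ) = t := by rw [← Real.rpow_add htp]; norm_num
      have h3 : 4 ≤ t ^ (1 / 2 : ℝ) := by
        by_contra h
        push Not at h
        have h5 : 0 ≤ t ^ (1 / 2 : ℝ) := by positivity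
        nlinarith
      nlinarith [Real.rpow_nonneg htp.le (1 / 2 : ℝ)]
    have h := ht0 t (by linarith)
    have hs : (∑ j, ∫ y in (t - t ^ ε)..(t + t ^ ε), ‖Fl (μ j) (w j) P y‖ ^ p) ≤
        ∑ j, ∫ y in (t - V)..(t + V), ‖Fm (μ j) (w j) P R y‖ ^ p := by
      refine Finset.sum_le_sum fun j _ => ?_
      rw [← Fm_int (R := R) (by linarith) (by linarith)]
      exact int_mono_set (hF j) (hF0 j) (by linarith) (by linarith) (by linarith)
    have hz : ∫ y in (t - t ^ ε)..(t + t ^ ε), ‖zl y‖ ^ (((k : ℝ) - 1) * p) ≤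
        lam * (∫ y in (t - V)..(t + V), ‖zl y‖ ^ (k * p)) + 2 * V * (lam⁻¹) ^ (k - 1) := by
      calc _ ≤ ∫ y in (t - V)..(t + V), ‖zl y‖ ^ (((k : ℝ) - 1) * p) :=
            int_mono_set hg (fun y => by positivity) (by linarith) (by linarith) (by linarith)
        _ ≤ ∫ y in (t - V)..(t + V), (lam * ‖zl y‖ ^ (k * p) + (lam⁻¹) ^ (k - 1)) := by
            refine intervalIntegral.integral_mono_on (by linarith) (hg.intervalIntegrable _ _)
              (((continuous_const.mul hf).add continuous_const).intervalIntegrable _ _) fun y _ => ?_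
            have h7 := low_pow hP (x := ‖zl y‖ ^ p) (by positivity) hl0
            have h8 : (‖zl y‖ ^ p) ^ (k - 1) = ‖zl y‖ ^ (((k : ℝ) - 1) * p) := by
              rw [← Real.rpow_natCast, ← Real.rpow_mul (norm_nonneg _), Nat.cast_sub hP]
              congr 1; push_cast; ring
            have h9 : (‖zl y‖ ^ p) ^ k = ‖zl y‖ ^ (k * p) := by
              rw [← Real.rpow_natCast, ← Real.rpow_mul (norm_nonneg _)]
              congr 1; ring
            rw [h8, h9] at h7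
            exact h7
        _ = _ := by
            have i1 : IntervalIntegrable (fun y : ℝ => lam * ‖zl y‖ ^ (k * p)) volume (t - V) (t + V) :=
              (continuous_const.mul hf).intervalIntegrable _ _
            rw [intervalIntegral.integral_add i1 (by simp),
              intervalIntegral.integral_const_mul, intervalIntegral.integral_const, smul_eq_mul]
            ring
    have hI0 : 0 ≤ ∑ j, ∫ y in (t - V)..(t + V), ‖Fm (μ j) (w j) P R y‖ ^ p :=
      Finset.sum_nonneg fun j _ => intervalIntegral.integral_nonneg (by linarith) fun y _ => hF0 j y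
    have hI1 : 0 ≤ ∫ y in (t - V)..(t + V), ‖zl y‖ ^ (k * p) :=
      intervalIntegral.integral_nonneg (by linarith) fun y _ => hf0 y
    calc ‖zl t‖ ^ (k * p) ≤ _ := h
      _ ≤ t ^ ε * (1 + (∑ j, ∫ y in (t - V)..(t + V), ‖Fm (μ j) (w j) P R y‖ ^ p) +
          (lam * (∫ y in (t - V)..(t + V), ‖zl y‖ ^ (k * p)) + 2 * V * (lam⁻¹) ^ (k - 1))) :=
        mul_le_mul_of_nonneg_left (by linarith) hte0.le
      _ ≤ _ := mul_le_mul_of_nonneg_right hte (by positivity)
  have hWf := W_cont hf V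
  have hWF : ∀ j, Continuous fun t : ℝ => ∫ y in (t - V)..(t + V), ‖Fm (μ j) (w j) P R y‖ ^ p := fun j => W_cont (hF j) V
  have hsum : Continuous fun t : ℝ => ∑ j, ∫ y in (t - V)..(t + V), ‖Fm (μ j) (w j) P R y‖ ^ p :=
    continuous_finsetSum _ fun j _ => hWF j
  have hC2 : Continuous fun t : ℝ => lam * (∫ y in (t - V)..(t + V), ‖zl y‖ ^ (k * p)) + 2 * V * (lam⁻¹) ^ (k - 1) :=
    (continuous_const.mul hWf).add continuous_const
  have hC1 : Continuous fun t : ℝ => 1 + (∑ j, ∫ y in (t - V)..(t + V), ‖Fm (μ j) (w j) P R y‖ ^ p) :=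
    continuous_const.add hsum
  have hC : Continuous fun t : ℝ => V * (1 + (∑ j, ∫ y in (t - V)..(t + V), ‖Fm (μ j) (w j) P R y‖ ^ p) +
      (lam * (∫ y in (t - V)..(t + V), ‖zl y‖ ^ (k * p)) + 2 * V * (lam⁻¹) ^ (k - 1))) :=
    continuous_const.mul (hC1.add hC2)
  have hC3 : IntervalIntegrable (fun t : ℝ => lam * (∫ y in (t - V)..(t + V), ‖zl y‖ ^ (k * p))) volume a b :=
    (continuous_const.mul hWf).intervalIntegrable _ _
  have hC4 : ∀ j ∈ (Finset.univ : Finset (Fin m)),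
      IntervalIntegrable (fun t : ℝ => ∫ y in (t - V)..(t + V), ‖Fm (μ j) (w j) P R y‖ ^ p) volume a b :=
    fun j _ => (hWF j).intervalIntegrable _ _
  have main := intervalIntegral.integral_mono_on (μ := volume) hab (hf.intervalIntegrable a b) (hC.intervalIntegrable a b) key
  have hC5 : IntervalIntegrable (fun t : ℝ => ∑ j, ∫ y in (t - V)..(t + V), ‖Fm (μ j) (w j) P R y‖ ^ p) volume a b :=
    hsum.intervalIntegrable _ _
  have hC6 : IntervalIntegrable (fun t : ℝ => 1 + (∑ j, ∫ y in (t - V)..(t + V), ‖Fm (μ j) (w j) P R y‖ ^ p)) volume a b :=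
    hC1.intervalIntegrable _ _
  have hC7 : IntervalIntegrable (fun t : ℝ => lam * (∫ y in (t - V)..(t + V), ‖zl y‖ ^ (k * p)) +
      2 * V * (lam⁻¹) ^ (k - 1)) volume a b := hC2.intervalIntegrable _ _
  rw [intervalIntegral.integral_const_mul, intervalIntegral.integral_add hC6 hC7,
    intervalIntegral.integral_add (by simp) hC5,
    intervalIntegral.integral_add hC3 (by simp),
    intervalIntegral.integral_const_mul, intervalIntegral.integral_finsetSum hC4,
    intervalIntegral.integral_const, intervalIntegral.integral_const, smul_eq_mul, smul_eq_mul] at main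
  have w1 : ∀ j, ∫ t in a..b, (∫ y in (t - V)..(t + V), ‖Fm (μ j) (w j) P R y‖ ^ p) ≤
      2 * V * ∫ y in (a - V)..(b + V), ‖Fm (μ j) (w j) P R y‖ ^ p := fun j => window (hF j) (hF0 j) hV0.le
  have w2 := window (a := a) (b := b) hf hf0 hV0.le
  have w3 : ∑ j, ∫ t in a..b, (∫ y in (t - V)..(t + V), ‖Fm (μ j) (w j) P R y‖ ^ p) ≤
      2 * V * ∑ j, ∫ y in (a - V)..(b + V), ‖Fm (μ j) (w j) P R y‖ ^ p := by
    rw [Finset.mul_sum]
    exact Finset.sum_le_sum fun j _ => w1 j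
  have hE0 : 0 ≤ ∫ y in (a - V)..(b + V), ‖zl y‖ ^ (k * p) :=
    intervalIntegral.integral_nonneg (by linarith) fun y _ => hf0 y
  have hlinv : (lam⁻¹) ^ (k - 1) = V ^ (3 * (k - 1)) := by
    rw [hlam, ← inv_pow, inv_inv, ← pow_mul]
  have hVV : V * (2 * V * V ^ (3 * (k - 1))) ≤ 2 * V ^ (3 * k) := by
    have e : V ^ (3 * k) = V ^ 3 * V ^ (3 * (k - 1)) := by
      rw [← pow_add]; congr 1; omega
    have e2 : V ^ 2 ≤ V ^ 3 := pow_le_pow_right₀ hV1 (by norm_num)
    have e3 : 0 < V ^ (3 * (k - 1)) := by positivity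
    rw [e]
    nlinarith
  have hVk : V ≤ V ^ (3 * k) := by
    calc V = V ^ 1 := (pow_one V).symm
      _ ≤ _ := pow_le_pow_right₀ hV1 (by omega)
  have hlV : V * (lam * (2 * V)) = 2 / V := by
    rw [hlam]; field_simp
  rw [hlinv] at main
  calc ∫ t in a..b, ‖zl t‖ ^ (k * p) ≤ _ := main
    _ ≤ V * ((b - a) * 1 + 2 * V * (∑ j, ∫ y in (a - V)..(b + V), ‖Fm (μ j) (w j) P R y‖ ^ p) +
        (lam * (2 * V * ∫ y in (a - V)..(b + V), ‖zl y‖ ^ (k * p)) + (b - a) * (2 * V * V ^ (3 * (k - 1))))) := by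
      refine mul_le_mul_of_nonneg_left ?_ hV0.le
      have := mul_le_mul_of_nonneg_left w2 hl0.le
      linarith
    _ = (V + V * (2 * V * V ^ (3 * (k - 1)))) * (b - a) + 2 * V ^ 2 * (∑ j, ∫ y in (a - V)..(b + V), ‖Fm (μ j) (w j) P R y‖ ^ p) +
        (V * (lam * (2 * V))) * ∫ y in (a - V)..(b + V), ‖zl y‖ ^ (k * p) := by ring
    _ ≤ _ := by
      rw [hlV]
      have : (V + V * (2 * V * V ^ (3 * (k - 1)))) * (b - a) ≤ 3 * V ^ (3 * k) * (b - a) :=
        mul_le_mul_of_nonneg_right (by linarith) (by linarith)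
      linarith

end Pool.Agent.H60.ME
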