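import Pool.Agent.H60.ME.Up

/-! Moments of averages are bounded by moments of zeta. -/

set_option autoImplicit false

open Complex MeasureTheory Finset Filter Topology
open Pool.Agent.R747.TL Pool.Agent.TH804.SS Pool.Agent.H60.WM Pool.Agent.H60.ZA

namespace Pool.Agent.H60.ME

lemma one_add_pow {k : ℕ} {x : ℝ} (hx : 0 ≤ x) : (1 + x) ^ k ≤ 2 ^ k * (1 + x ^ k) := by
  have h2 : 0 ≤ x ^ k := by positivity
  rcases le_total x 1 with h | h
  · calc (1 + x) ^ k ≤ 2 ^ k := pow_le_pow_left₀ (by linarith) (by linarith) _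
      _ ≤ _ := le_mul_of_one_le_right (by positivity) (by linarith)
  · calc (1 + x) ^ k ≤ (2 * x) ^ k := pow_le_pow_left₀ (by linarith) (by linarith) _
      _ = 2 ^ k * x ^ k := mul_pow _ _ _
      _ ≤ _ := mul_le_mul_of_nonneg_left (by linarith) (by positivity)

theorem Fl_ptw {μ : Measure ℂ} {w : ℂ → ℂ} {R : ℝ} (hR : 0 ≤ R) (hg : Good μ w R) (P : Polynomial ℂ)
    {p ε : ℝ} (hp : 1 ≤ p) (hε : 0 < ε) (hε1 : ε ≤ 1 / 2) : ∀ᶠ t : ℝ in atTop,
      ‖Fl μ w P t‖ ^ p ≤ t ^ ε * (1 + ∫ y in (t - t ^ ε)..(t + t ^ ε), ‖zl y‖ ^ (P.natDegree * p)) := by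
  set k := P.natDegree with hk
  have hk0 : (0 : ℝ) ≤ k := by positivity
  have hp0 : 0 < p := by linarith
  set q : ℝ := k * p with hq
  have hq0 : 0 ≤ q := by positivity
  set c : ℝ := 4 * (q + 3) + 4 with hc
  have hc0 : 16 ≤ c := by linarith
  set η : ℝ := ε / c with hη
  have hη0 : 0 < η := by positivity
  have hηc : η * c = ε := by rw [hη]; field_simp
  have hη1 : η ≤ 1 / 8 := by nlinarith
  obtain ⟨C, hC0, hC⟩ := poly_bound P
  obtain ⟨D, hD1, hD⟩ := kbound (k := k + 1) (Nat.succ_pos k) hR hp hη0 hη1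
  have htm := tm_nonneg μ w
  set B : ℝ := (tm μ w * (C * 2 ^ k)) ^ p * 2 ^ p with hB
  have hB0 : 0 ≤ B := by positivity
  filter_upwards [hD, ev_const (K := 2) hη0, ev_const (K := B * (1 + D)) hη0, eventually_ge_atTop (1 : ℝ)] with t ht h2 h3 ht1
  obtain ⟨K, hK0, hK1, hK2⟩ := ht
  have ht0 : 0 < t := by linarith
  simp only [Nat.add_sub_cancel] at hK1
  have hX0 : 0 < t ^ (2 * η) := by positivity
  have b1 : ‖Fl μ w P t‖ ≤ tm μ w * (C * 2 ^ k) * (1 + K) := by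
    unfold Fl FF tm
    rw [mul_assoc, ← integral_mul_const]
    refine norm_integral_le_of_norm_le (hg.int.norm.mul_const _) ?_
    filter_upwards [hg.supp] with z hz
    rw [norm_mul]
    refine mul_le_mul_of_nonneg_left ((hC _).trans ?_) (norm_nonneg _)
    have h5 : ‖riemannZeta (((1 / 2 : ℝ) : ℂ) + (t : ℂ) * I + z)‖ ^ k ≤ K := by
      refine hK1 _ ?_ ?_
      · simp only [add_re, ofReal_re, mul_re, I_re, mul_zero, I_im, ofReal_im, mul_one, sub_self, add_zero]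
        linarith [hz.1]
      · have h7 := (Complex.abs_im_le_norm z).trans hz.2
        simp only [add_im, ofReal_im, mul_im, I_re, mul_zero, I_im, ofReal_re, mul_one, zero_add, add_zero]
        rw [show t + z.im - t = z.im by ring]
        linarith
    calc C * (1 + ‖riemannZeta (((1 / 2 : ℝ) : ℂ) + (t : ℂ) * I + z)‖) ^ k ≤
          C * (2 ^ k * (1 + ‖riemannZeta (((1 / 2 : ℝ) : ℂ) + (t : ℂ) * I + z)‖ ^ k)) :=
          mul_le_mul_of_nonneg_left (one_add_pow (norm_nonneg _)) hC0.le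
      _ ≤ C * (2 ^ k * (1 + K)) := by gcongr
      _ = _ := by ring
  set IZ : ℝ := ∫ y in (t - t ^ ε)..(t + t ^ ε), ‖zl y‖ ^ q with hIZ
  have hf : Continuous fun y : ℝ => ‖zl y‖ ^ q := zl_cont.norm.rpow_const fun _ => Or.inr hq0
  have htε : 0 < t ^ ε := by positivity
  have hIZ0 : 0 ≤ IZ := intervalIntegral.integral_nonneg (by linarith) fun y _ => by positivity
  have e4 : 2 * t ^ (4 * η) ≤ t ^ ε := by
    calc 2 * t ^ (4 * η) ≤ t ^ η * t ^ (4 * η) := mul_le_mul_of_nonneg_right h2 (by positivity)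
      _ = t ^ (η + 4 * η) := by rw [Real.rpow_add ht0]
      _ ≤ t ^ ε := Real.rpow_le_rpow_of_exponent_le ht1 (by nlinarith)
  have e5 : 0 < t ^ (4 * η) := by positivity
  have b2 : ∫ y in (-(2 * t ^ (4 * η)))..(2 * t ^ (4 * η)), ‖zl (t + y)‖ ^ q ≤ IZ := by
    rw [intervalIntegral.integral_comp_add_left (fun y => ‖zl y‖ ^ q)]
    exact int_mono_set hf (fun y => by positivity) (by linarith) (by linarith) (by linarith)
  have ee : (((k + 1 : ℕ) : ℝ) - 1) * p = q := by push_cast; ring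
  rw [ee] at hK2
  have b3 : K ^ p ≤ D * t ^ ((q + 3) * (4 * η)) * (1 + IZ) := hK2.trans
    (mul_le_mul_of_nonneg_left (by linarith) (by positivity))
  have e6 : 1 ≤ t ^ ((q + 3) * (4 * η)) := Real.one_le_rpow ht1 (by positivity)
  calc ‖Fl μ w P t‖ ^ p ≤ (tm μ w * (C * 2 ^ k) * (1 + K)) ^ p := Real.rpow_le_rpow (norm_nonneg _) b1 hp0.le
    _ = (tm μ w * (C * 2 ^ k)) ^ p * (1 + K) ^ p := Real.mul_rpow (by positivity) (by linarith)
    _ ≤ (tm μ w * (C * 2 ^ k)) ^ p * (2 ^ p * (1 ^ p + K ^ p)) :=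
        mul_le_mul_of_nonneg_left (add_rpow_le zero_le_one hK0 hp0.le) (by positivity)
    _ = B * (1 + K ^ p) := by rw [Real.one_rpow, hB]; ring
    _ ≤ B * (t ^ ((q + 3) * (4 * η)) * (1 + IZ) + D * t ^ ((q + 3) * (4 * η)) * (1 + IZ)) := by
        refine mul_le_mul_of_nonneg_left (add_le_add ?_ b3) hB0
        exact one_le_mul_of_one_le_of_one_le e6 (by linarith)
    _ = (B * (1 + D)) * t ^ ((q + 3) * (4 * η)) * (1 + IZ) := by ring
    _ ≤ t ^ η * t ^ ((q + 3) * (4 * η)) * (1 + IZ) := by gcongr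
    _ = t ^ (η + (q + 3) * (4 * η)) * (1 + IZ) := by rw [Real.rpow_add ht0]
    _ ≤ t ^ ε * (1 + IZ) := by
        refine mul_le_mul_of_nonneg_right (Real.rpow_le_rpow_of_exponent_le ht1 ?_) (by linarith)
        nlinarith

theorem lower {μ : Measure ℂ} {w : ℂ → ℂ} {R : ℝ} (hR : 0 ≤ R) (hg : Good μ w R) (P : Polynomial ℂ)
    {p ε : ℝ} (hp : 1 ≤ p) (hε : 0 < ε) (hε1 : ε ≤ 1 / 2) : ∀ᶠ T : ℝ in atTop, ∀ a b : ℝ, T ≤ a → a ≤ b → b ≤ 2 * T →
      ∫ t in a..b, ‖Fl μ w P t‖ ^ p ≤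
        T ^ ε * (1 + (b - a) + ∫ y in (a - T ^ ε)..(b + T ^ ε), ‖zl y‖ ^ (P.natDegree * p)) := by
  set k := P.natDegree with hk
  have hk0 : (0 : ℝ) ≤ k := by positivity
  have hp0 : 0 < p := by linarith
  set q : ℝ := k * p with hq
  have hq0 : 0 ≤ q := by positivity
  set e : ℝ := ε / 4 with he
  have he0 : 0 < e := by positivity
  have he1 : e ≤ 1 / 2 := by linarith
  obtain ⟨t0, ht0⟩ := eventually_atTop.1 (Fl_ptw hR hg P hp he0 he1)
  filter_upwards [eventually_ge_atTop t0, ev_const (K := 8) he0, eventually_ge_atTop (4 * (R + 1) + 64)] with T h1 h2 hT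
  intro a b ha hab hb
  have hT0 : 0 < T := by linarith
  have hT1 : 1 ≤ T := by linarith
  set V : ℝ := (2 * T) ^ e with hV
  have hV1 : 1 ≤ V := Real.one_le_rpow (by linarith) he0.le
  have hV0 : 0 < V := by linarith
  have hVT : V ≤ 2 * T ^ e := by
    calc V = 2 ^ e * T ^ e := Real.mul_rpow (by norm_num) hT0.le
      _ ≤ 2 ^ (1 : ℝ) * T ^ e := mul_le_mul_of_nonneg_right (Real.rpow_le_rpow_of_exponent_le (by norm_num) (by linarith))
          (by positivity)
      _ = _ := by rw [Real.rpow_one]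
  have hTe0 : 0 < T ^ e := by positivity
  have hTε : T ^ ε = T ^ e * T ^ e * (T ^ e * T ^ e) := by
    rw [← Real.rpow_add hT0, ← Real.rpow_add hT0]; congr 1; rw [he]; ring
  have hVV : 2 * V ^ 2 ≤ T ^ ε := by
    rw [hTε]
    have : V ^ 2 ≤ (2 * T ^ e) ^ 2 := pow_le_pow_left₀ hV0.le hVT _
    have hx2 : 64 ≤ T ^ e * T ^ e := by nlinarith
    have hx3 := mul_le_mul_of_nonneg_right hx2 (mul_pos hTe0 hTe0).le
    have hx4 : (2 * T ^ e) ^ 2 = 4 * (T ^ e * T ^ e) := by ring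
    linarith [mul_pos hTe0 hTe0]
  have hVε : V ≤ T ^ ε := by nlinarith
  have hV2 : V ≤ 2 * V ^ 2 := by nlinarith
  have hf : Continuous fun y : ℝ => ‖zl y‖ ^ q := zl_cont.norm.rpow_const fun _ => Or.inr hq0
  have hf0 : ∀ y : ℝ, 0 ≤ ‖zl y‖ ^ q := fun y => by positivity
  have hF : Continuous fun y : ℝ => ‖Fm μ w P R y‖ ^ p :=
    (Fm_cont hg P).norm.rpow_const fun _ => Or.inr hp0.le
  have key : ∀ t ∈ Set.Icc a b, ‖Fm μ w P R t‖ ^ p ≤ V * (1 + ∫ y in (t - V)..(t + V), ‖zl y‖ ^ q) := by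
    intro t ht
    have hta := ht.1
    have htb := ht.2
    have htp : 0 < t := by linarith
    rw [Fm_eq (by linarith)]
    have hte : t ^ e ≤ V := Real.rpow_le_rpow htp.le (by linarith) he0.le
    have hte0 : 0 < t ^ e := by positivity
    have hI : ∫ y in (t - t ^ e)..(t + t ^ e), ‖zl y‖ ^ q ≤ ∫ y in (t - V)..(t + V), ‖zl y‖ ^ q :=
      int_mono_set hf hf0 (by linarith) (by linarith) (by linarith)
    have hI0 : 0 ≤ ∫ y in (t - t ^ e)..(t + t ^ e), ‖zl y‖ ^ q :=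
      intervalIntegral.integral_nonneg (by linarith) fun y _ => hf0 y
    calc _ ≤ _ := ht0 t (by linarith)
      _ ≤ _ := mul_le_mul hte (by linarith) (by linarith) hV0.le
  have hW := W_cont hf V
  have hWi : IntervalIntegrable (fun t : ℝ => ∫ y in (t - V)..(t + V), ‖zl y‖ ^ q) volume a b := hW.intervalIntegrable _ _
  have hWj : IntervalIntegrable (fun t : ℝ => V * (1 + ∫ y in (t - V)..(t + V), ‖zl y‖ ^ q)) volume a b :=
    (continuous_const.mul (continuous_const.add hW)).intervalIntegrable _ _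
  have main := intervalIntegral.integral_mono_on (μ := volume) hab (hF.intervalIntegrable a b) hWj key
  rw [intervalIntegral.integral_const_mul, intervalIntegral.integral_add (by simp) hWi,
    intervalIntegral.integral_const, smul_eq_mul, Fm_int (by linarith) (by linarith)] at main
  have w2 := window (a := a) (b := b) hf hf0 hV0.le
  have w3 : ∫ y in (a - V)..(b + V), ‖zl y‖ ^ q ≤ ∫ y in (a - T ^ ε)..(b + T ^ ε), ‖zl y‖ ^ q :=
    int_mono_set hf hf0 (by linarith) (by linarith) (by linarith)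
  have w4 : 0 ≤ ∫ y in (a - V)..(b + V), ‖zl y‖ ^ q :=
    intervalIntegral.integral_nonneg (by linarith) fun y _ => hf0 y
  calc ∫ t in a..b, ‖Fl μ w P t‖ ^ p ≤ _ := main
    _ ≤ V * ((b - a) * 1 + 2 * V * ∫ y in (a - V)..(b + V), ‖zl y‖ ^ q) :=
        mul_le_mul_of_nonneg_left (by linarith) hV0.le
    _ = V * (b - a) + 2 * V ^ 2 * ∫ y in (a - V)..(b + V), ‖zl y‖ ^ q := by ring
    _ ≤ T ^ ε * (b - a) + T ^ ε * ∫ y in (a - T ^ ε)..(b + T ^ ε), ‖zl y‖ ^ q := by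
        refine add_le_add (mul_le_mul_of_nonneg_right hVε (by linarith)) (mul_le_mul hVV w3 w4 (by positivity))
    _ ≤ _ := by
        have : 0 ≤ T ^ ε := by positivity
        nlinarith

end Pool.Agent.H60.ME
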