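import Pool.Agent.H60.WM.Asym
import Mathlib.Analysis.Distribution.SchwartzSpace.Fourier
import Mathlib.Analysis.Calculus.BumpFunction.FiniteDimension
import Mathlib.Analysis.Convex.Integral

/-! A local inequality of Nikolskii type. -/

set_option autoImplicit false

open Complex MeasureTheory Finset Filter Topology FourierTransform SchwartzMap
open scoped SchwartzMap
open Pool.Agent.H60.WM

namespace Pool.Agent.H60.ME

/-- a reproducing kernel for frequencies at most `1` -/
lemma kernel : ∃ φ : 𝓢(ℝ, ℂ), ∀ l : ℝ, |l| ≤ 1 → ∫ y : ℝ, cexp (I * l * y) * φ y = 1 := by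
  let b : ContDiffBump (0 : ℝ) := ⟨1, 2, one_pos, one_lt_two⟩
  have hb1 : HasCompactSupport (fun x : ℝ => ((b x : ℝ) : ℂ)) := by
    have := b.hasCompactSupport
    exact this.comp_left (g := fun x : ℝ => (x : ℂ)) (by simp)
  have hb2 : ContDiff ℝ (⊤ : ℕ∞) (fun x : ℝ => ((b x : ℝ) : ℂ)) := Complex.ofRealCLM.contDiff.comp b.contDiff
  let ψ : 𝓢(ℝ, ℂ) := hb1.toSchwartzMap hb2
  let φ : 𝓢(ℝ, ℂ) := 𝓕⁻ ψ
  refine ⟨φ, fun l hl => ?_⟩
  have h1 : 𝓕 φ = ψ := FourierTransform.fourier_fourierInv_eq ψ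
  have hp := Real.pi_pos
  set ξ : ℝ := -(l / (2 * Real.pi)) with hξ
  have h2 : (𝓕 φ : 𝓢(ℝ, ℂ)) ξ = ψ ξ := by rw [h1]
  rw [SchwartzMap.fourier_coe, Real.fourier_real_eq_integral_exp_smul] at h2
  have h3 : ψ ξ = 1 := by
    show ((b ξ : ℝ) : ℂ) = 1
    rw [b.one_of_mem_closedBall]
    · simp
    · rw [Metric.mem_closedBall, dist_zero_right, Real.norm_eq_abs, hξ, abs_neg, abs_div, abs_of_pos (by positivity : 0 < 2 * Real.pi)]
      show |l| / (2 * Real.pi) ≤ 1
      rw [div_le_one (by positivity)]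
      have := Real.pi_gt_three
      linarith
  rw [h3] at h2
  rw [← h2]
  congr 1
  ext y
  rw [smul_eq_mul]
  congr 2
  rw [hξ]
  push_cast
  have : (Real.pi : ℂ) ≠ 0 := by exact_mod_cast hp.ne'
  field_simp

lemma jens {a b p : ℝ} (hab : a < b) (hp : 1 ≤ p) {f : ℝ → ℝ} (hf : Continuous f) (h0 : ∀ x, 0 ≤ f x) :
    (∫ x in a..b, f x) ^ p ≤ (b - a) ^ (p - 1) * ∫ x in a..b, f x ^ p := by
  have hba : 0 < b - a := by linarith
  set ν : Measure ℝ := volume.restrict (Set.Ioc a b) with hν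
  have hvol : ν.real Set.univ = b - a := by
    rw [hν, measureReal_restrict_apply_univ, Real.volume_real_Ioc_of_le hab.le]
  have hne : NeZero ν := ⟨by
    intro h
    have : ν.real Set.univ = 0 := by rw [h]; simp
    linarith⟩
  have hpos : 0 < ν.real Set.univ := by rw [hvol]; exact hba
  have hfp : Continuous fun x => f x ^ p := hf.rpow_const fun x => Or.inr (by linarith)
  have hj := (convexOn_rpow hp).map_average_le (μ := ν) (f := f)
    (fun x hx => (Real.continuousAt_rpow_const x p (Or.inr (by linarith))).continuousWithinAt) isClosed_Ici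
    (Filter.Eventually.of_forall fun x => h0 x)
    ((hf.intervalIntegrable a b).1) ((hfp.intervalIntegrable a b).1)
  rw [average_eq, average_eq, hvol, smul_eq_mul, smul_eq_mul] at hj
  rw [intervalIntegral.integral_of_le hab.le, intervalIntegral.integral_of_le hab.le]
  have h1 : 0 ≤ ∫ x in Set.Ioc a b, f x := integral_nonneg fun x => h0 x
  rw [Real.mul_rpow (by positivity) h1, Real.inv_rpow hba.le] at hj
  have h2 : (b - a) ^ p = (b - a) ^ (p - 1) * (b - a) := by
    rw [← Real.rpow_add_one hba.ne']; congr 1; ring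
  have h3 : 0 < (b - a) ^ p := Real.rpow_pos_of_pos hba _
  rw [inv_mul_le_iff₀ h3, h2] at hj
  calc _ ≤ _ := hj
    _ = _ := by rw [hν]; field_simp

variable {ι : Type*}

lemma tp_cont' (S : Finset ι) (c : ι → ℂ) (lam : ι → ℝ) : Continuous fun x : ℝ => tp S c lam (x : ℂ) := by
  unfold tp
  fun_prop

theorem nik {A p η : ℝ} (hA : 0 ≤ A) (hp : 1 ≤ p) (hη : 0 < η) : ∀ᶠ T : ℝ in atTop,
    ∀ (S : Finset ι) (c : ι → ℂ) (lam : ι → ℝ), (∀ k ∈ S, |lam k| ≤ A * Real.log T) → nb S c ≤ T ^ A →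
      ∀ x0 : ℝ, ‖tp S c lam (x0 : ℂ)‖ ^ p ≤ T ^ ((p + 1) * η) *
        (1 + ∫ y in (x0 - T ^ η)..(x0 + T ^ η), ‖tp S c lam (y : ℂ)‖ ^ p) := by
  obtain ⟨φ, hφ⟩ := kernel
  obtain ⟨N, hN⟩ := exists_nat_ge (A / η)
  have hN' : A ≤ η * N := by rw [div_le_iff₀ hη] at hN; linarith
  obtain ⟨C0, hC0p, hC0'⟩ := φ.decay 0 0
  have hC0 : ∀ u : ℝ, ‖φ u‖ ≤ C0 := fun u => by simpa using hC0' u
  set D : ℝ := ∫ u : ℝ, ‖u‖ ^ N * ‖φ u‖ with hD
  have hD0 : 0 ≤ D := integral_nonneg fun u => by positivity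
  have hDi : Integrable (fun u : ℝ => ‖u‖ ^ N * ‖φ u‖) := φ.integrable_pow_mul volume N
  have hp0 : 0 < p := by linarith
  filter_upwards [eventually_ge_atTop (1 : ℝ), ev_log (η := 2 * η / p) (A := A) (K := 4 * (C0 + D)) (by positivity)]
    with T hT1 hTlog
  intro S c lam hlam hnb x0
  have hT0 : 0 < T := by linarith
  have hlogT : 0 ≤ Real.log T := Real.log_nonneg hT1
  set B : ℝ := A * Real.log T + 1 with hB
  have hAl : 0 ≤ A * Real.log T := mul_nonneg hA hlogT
  have hB1 : 1 ≤ B := by linarith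
  have hB0 : 0 < B := by linarith
  set X : ℝ := T ^ η with hX
  have hX1 : 1 ≤ X := Real.one_le_rpow hT1 hη.le
  have hX0 : 0 < X := by linarith
  set f : ℝ → ℝ := fun y => ‖tp S c lam (y : ℂ)‖ with hf
  have hfc : Continuous f := (tp_cont' S c lam).norm
  have hf0 : ∀ y, 0 ≤ f y := fun y => norm_nonneg _
  have hfnb : ∀ y, f y ≤ nb S c := fun y => tp_norm S c lam y
  -- reproducing formula
  have hrep : tp S c lam (x0 : ℂ) = ∫ u : ℝ, φ u * tp S c lam ((x0 - u / B : ℝ) : ℂ) := by
    unfold tp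
    have e1 : ∀ u : ℝ, φ u * ∑ k ∈ S, c k * cexp (-(I * lam k * ((x0 - u / B : ℝ) : ℂ))) =
        ∑ k ∈ S, (c k * cexp (-(I * lam k * x0))) * (cexp (I * ((lam k / B : ℝ) : ℂ) * u) * φ u) := by
      intro u
      rw [Finset.mul_sum]
      refine Finset.sum_congr rfl fun k _ => ?_
      have : cexp (-(I * lam k * ((x0 - u / B : ℝ) : ℂ))) =
          cexp (-(I * lam k * x0)) * cexp (I * ((lam k / B : ℝ) : ℂ) * u) := by
        rw [← Complex.exp_add]
        congr 1
        push_cast
        ring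
      rw [this]; ring
    simp_rw [e1]
    rw [integral_finsetSum]
    · refine Finset.sum_congr rfl fun k hk => ?_
      rw [integral_const_mul, hφ, mul_one]
      rw [abs_div, abs_of_pos hB0, div_le_one hB0]
      linarith [hlam k hk]
    · intro k _
      refine Integrable.const_mul ?_ _
      have hi : Integrable (fun u : ℝ => φ u) := φ.integrable
      refine (hi.bdd_mul (c := 1) (by fun_prop : Continuous fun u : ℝ => cexp (I * ((lam k / B : ℝ) : ℂ) * u)).aestronglyMeasurable ?_)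
      refine Filter.Eventually.of_forall fun u => ?_
      rw [show I * ((lam k / B : ℝ) : ℂ) * (u : ℂ) = ((lam k / B * u : ℝ) : ℂ) * I by push_cast; ring,
        Complex.norm_exp_ofReal_mul_I]
  -- the estimate
  have hBX : 0 < B * X := by positivity
  have hmain : f x0 ≤ C0 * B * (∫ y in (x0 - X)..(x0 + X), f y) + D := by
    have hpt : ∀ u : ℝ, ‖φ u * tp S c lam ((x0 - u / B : ℝ) : ℂ)‖ ≤
        Set.indicator (Set.Ioc (-(B * X)) (B * X)) (fun u => C0 * f (x0 - u / B)) u +
          ‖u‖ ^ N * ‖φ u‖ + (if u = -(B * X) then C0 * nb S c else 0) := by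
      intro u
      rw [norm_mul]
      have hn0 : 0 ≤ ‖u‖ ^ N * ‖φ u‖ := by positivity
      have hnb0 : 0 ≤ nb S c := nb_nonneg S c
      by_cases hu : u ∈ Set.Ioc (-(B * X)) (B * X)
      · rw [Set.indicator_of_mem hu]
        have h1 : ‖φ u‖ * ‖tp S c lam ((x0 - u / B : ℝ) : ℂ)‖ ≤ C0 * f (x0 - u / B) :=
          mul_le_mul_of_nonneg_right (hC0 u) (norm_nonneg _)
        have h2 : 0 ≤ (if u = -(B * X) then C0 * nb S c else 0) := by
          split_ifs
          · positivity
          · exact le_rfl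
        linarith
      · rw [Set.indicator_of_notMem hu, zero_add]
        by_cases hu2 : u = -(B * X)
        · rw [if_pos hu2]
          have : ‖φ u‖ * ‖tp S c lam ((x0 - u / B : ℝ) : ℂ)‖ ≤ C0 * nb S c :=
            mul_le_mul (hC0 u) (hfnb _) (norm_nonneg _) hC0p.le
          linarith
        · rw [if_neg hu2, add_zero]
          have h3 : B * X < |u| := by
            by_contra hcon
            push Not at hcon
            have := abs_le.1 hcon
            exact hu ⟨lt_of_le_of_ne this.1 (Ne.symm hu2), this.2⟩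
          have h4 : nb S c ≤ ‖u‖ ^ N := by
            calc nb S c ≤ T ^ A := hnb
              _ ≤ T ^ (η * N) := Real.rpow_le_rpow_of_exponent_le hT1 hN'
              _ = X ^ N := by rw [Real.rpow_mul hT0.le, Real.rpow_natCast]
              _ ≤ ‖u‖ ^ N := by
                  apply pow_le_pow_left₀ hX0.le
                  rw [Real.norm_eq_abs]
                  nlinarith
          calc ‖φ u‖ * ‖tp S c lam ((x0 - u / B : ℝ) : ℂ)‖ ≤ ‖φ u‖ * ‖u‖ ^ N :=
                mul_le_mul_of_nonneg_left ((hfnb _).trans h4) (norm_nonneg _)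
            _ = _ := by ring
    have hfi : Continuous fun u : ℝ => C0 * f (x0 - u / B) := by fun_prop
    have hii : Integrable (Set.indicator (Set.Ioc (-(B * X)) (B * X)) (fun u => C0 * f (x0 - u / B))) := by
      rw [integrable_indicator_iff measurableSet_Ioc]
      exact (hfi.intervalIntegrable _ _).1
    have hae : (fun u : ℝ => Set.indicator (Set.Ioc (-(B * X)) (B * X)) (fun u => C0 * f (x0 - u / B)) u +
          ‖u‖ ^ N * ‖φ u‖ + (if u = -(B * X) then C0 * nb S c else 0)) =ᵐ[volume]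
        fun u : ℝ => Set.indicator (Set.Ioc (-(B * X)) (B * X)) (fun u => C0 * f (x0 - u / B)) u +
          ‖u‖ ^ N * ‖φ u‖ := by
      have : ∀ᵐ u : ℝ, u ≠ -(B * X) := by
        rw [ae_iff]
        simp
      filter_upwards [this] with u hu
      rw [if_neg hu, add_zero]
    show ‖tp S c lam (x0 : ℂ)‖ ≤ _
    rw [hrep]
    refine (norm_integral_le_of_norm_le ((hii.add hDi).congr hae.symm) (Filter.Eventually.of_forall hpt)).trans ?_
    rw [integral_congr_ae hae, integral_add hii hDi, integral_indicator measurableSet_Ioc,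
      ← intervalIntegral.integral_of_le (by linarith : -(B * X) ≤ B * X), intervalIntegral.integral_const_mul]
    have e2 : ∫ u in (-(B * X))..(B * X), f (x0 - u / B) = B * ∫ y in (x0 - X)..(x0 + X), f y := by
      rw [intervalIntegral.integral_comp_sub_div f hB0.ne' x0, smul_eq_mul]
      congr 2
      · rw [mul_div_cancel_left₀ _ hB0.ne']
      · rw [neg_div, mul_div_cancel_left₀ _ hB0.ne']; ring
    rw [e2]
    linarith
  set J : ℝ := ∫ y in (x0 - X)..(x0 + X), f y with hJ
  have hJ0 : 0 ≤ J := intervalIntegral.integral_nonneg (by linarith) fun y _ => hf0 y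
  set J2 : ℝ := ∫ y in (x0 - X)..(x0 + X), f y ^ p with hJ2
  have hJ20 : 0 ≤ J2 := intervalIntegral.integral_nonneg (by linarith) fun y _ => Real.rpow_nonneg (hf0 y) _
  set K : ℝ := C0 * B + D with hK
  have hK0 : 0 ≤ K := by positivity
  have h1 : f x0 ≤ K * (1 + J) := by
    have e1 : 0 ≤ C0 * B := by positivity
    rw [hK]
    nlinarith [mul_nonneg hD0 hJ0]
  have hj := jens (a := x0 - X) (b := x0 + X) (by linarith) hp hfc hf0
  have h2X : 1 ≤ (x0 + X - (x0 - X)) ^ (p - 1) := Real.one_le_rpow (by linarith) (by linarith)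
  have hJp : (1 + J) ^ p ≤ 2 ^ p * ((x0 + X - (x0 - X)) ^ (p - 1) * (1 + J2)) := by
    have e1 : (1 + J) ^ p ≤ 2 ^ p * (1 + J ^ p) := by
      rcases le_total J 1 with h | h
      · calc (1 + J) ^ p ≤ 2 ^ p := Real.rpow_le_rpow (by linarith) (by linarith) hp0.le
          _ ≤ 2 ^ p * (1 + J ^ p) := le_mul_of_one_le_right (by positivity) (by
              have := Real.rpow_nonneg hJ0 p
              linarith)
      · calc (1 + J) ^ p ≤ (2 * J) ^ p := Real.rpow_le_rpow (by linarith) (by linarith) hp0.le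
          _ = 2 ^ p * J ^ p := Real.mul_rpow (by norm_num) hJ0
          _ ≤ 2 ^ p * (1 + J ^ p) := mul_le_mul_of_nonneg_left (by linarith) (by positivity)
    refine e1.trans (mul_le_mul_of_nonneg_left ?_ (by positivity))
    nlinarith
  have h4K : (4 * K) ^ p ≤ T ^ (2 * η) := by
    calc (4 * K) ^ p ≤ (T ^ (2 * η / p)) ^ p := by
          apply Real.rpow_le_rpow (by positivity) _ hp0.le
          refine le_trans ?_ hTlog
          rw [hK, hB]
          nlinarith [mul_nonneg hAl hC0p.le, mul_nonneg hAl hD0]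
      _ = T ^ (2 * η) := by
          rw [← Real.rpow_mul hT0.le]; congr 1; field_simp
  have h2Xe : (x0 + X - (x0 - X)) ^ (p - 1) ≤ 2 ^ p * T ^ ((p - 1) * η) := by
    have e1 : x0 + X - (x0 - X) = 2 * X := by ring
    rw [e1, Real.mul_rpow (by norm_num) hX0.le, hX, ← Real.rpow_mul hT0.le, mul_comm η]
    refine mul_le_mul_of_nonneg_right ?_ (by positivity)
    exact Real.rpow_le_rpow_of_exponent_le (by norm_num) (by linarith)
  calc f x0 ^ p ≤ (K * (1 + J)) ^ p := Real.rpow_le_rpow (hf0 _) h1 hp0.le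
    _ = K ^ p * (1 + J) ^ p := Real.mul_rpow hK0 (by linarith)
    _ ≤ K ^ p * (2 ^ p * ((2 ^ p * T ^ ((p - 1) * η)) * (1 + J2))) := by
        refine mul_le_mul_of_nonneg_left (hJp.trans ?_) (by positivity)
        gcongr
    _ = (4 * K) ^ p * T ^ ((p - 1) * η) * (1 + J2) := by
        rw [Real.mul_rpow (by norm_num) hK0, show (4 : ℝ) = 2 * 2 by norm_num, Real.mul_rpow (by norm_num) (by norm_num)]
        ring
    _ ≤ T ^ (2 * η) * T ^ ((p - 1) * η) * (1 + J2) := by gcongr
    _ = T ^ ((p + 1) * η) * (1 + J2) := by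
        rw [← Real.rpow_add hT0]; congr 2; ring

end Pool.Agent.H60.ME
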