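import Pool.Agent.H60.ME.Sup
import Pool.Agent.H60.ZA.An

/-! The pointwise inequality. -/

set_option autoImplicit false

open Complex MeasureTheory Finset Filter Topology
open Pool.Agent.R747.TL Pool.Agent.TH804.SS Pool.Agent.H60.WM Pool.Agent.H60.ZA

namespace Pool.Agent.H60.ME

lemma tr_le {μ : Measure ℂ} {w : ℂ → ℂ} {R : ℝ} (h : Good μ w R) {ξ : ℝ} (hξ : 0 ≤ ξ) : ‖tr μ w ξ‖ ≤ tm μ w := by
  unfold tr tm
  refine norm_integral_le_of_norm_le h.int.norm ?_
  filter_upwards [h.supp] with z hz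
  rw [norm_mul]
  refine mul_le_of_le_one_right (norm_nonneg _) ?_
  rw [Complex.norm_exp, Real.exp_le_one_iff, neg_re, re_ofReal_mul]
  nlinarith [mul_nonneg hξ hz.1]

/-- the comparison on one window -/
theorem comp {m : ℕ} {μ : Fin m → Measure ℂ} {w : Fin m → ℂ → ℂ} {R : ℝ} (hR : 0 ≤ R)
    (hμ : ∀ j, Good (μ j) (w j) R) (hS : Slow μ w) (P : Polynomial ℂ) (hP : 0 < P.natDegree)
    {η p : ℝ} (hη : 0 < η) (hη1 : η ≤ 1 / 8) (hp : 1 ≤ p) : ∃ A : ℝ, 1 ≤ A ∧
    ∀ᶠ T : ℝ in atTop, ∀ K : ℝ, 0 ≤ K →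
      (∀ s : ℂ, 1 / 2 ≤ s.re → |s.im - T| ≤ 2 * T ^ (2 * η) + R → ‖riemannZeta s‖ ^ (P.natDegree - 1) ≤ K) →
      ‖zl T‖ ^ P.natDegree ≤ A * T ^ (P.natDegree * η) * (1 + K + T ^ η * (T ^ ((p + 1) * (2 * η)) * (1 +
        (∑ j, ∫ y in (-(2 * T ^ (2 * η)))..(2 * T ^ (2 * η)),
          (A * (‖FF (μ j) (w j) P ((1 / 2 : ℝ) + ((T + y : ℝ) : ℂ) * I)‖ + (1 + K) * T ^ (P.natDegree * η))) ^ p))) ^ (1 / p)) := by
  obtain ⟨C, hC0, hC⟩ := poly_close P hP
  obtain ⟨C2, hC20, hC2⟩ := poly_close (Polynomial.X ^ P.natDegree) (by simpa using hP)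
  set k := P.natDegree with hk
  set l := ‖P.leadingCoeff‖ with hl
  have hPne : P ≠ 0 := by rintro rfl; simp at hk; omega
  have hl0 : 0 < l := norm_pos_iff.2 (Polynomial.leadingCoeff_ne_zero.2 hPne)
  set M := ∑ j, tm (μ j) (w j) with hM
  have hM0 : 0 ≤ M := Finset.sum_nonneg fun j _ => tm_nonneg _ _
  have hMj : ∀ j, tm (μ j) (w j) ≤ M := fun j =>
    Finset.single_le_sum (fun i _ => tm_nonneg (μ i) (w i)) (Finset.mem_univ j)
  have hk1 : (1 : ℝ) ≤ k := by exact_mod_cast hP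
  have hp0 : 0 < p := by linarith
  have hli : 0 < l⁻¹ := by positivity
  refine ⟨2 + l⁻¹ + M * (l⁻¹ * C) + M + C2, by
    have : 0 ≤ M * (l⁻¹ * C) := by positivity
    linarith, ?_⟩
  set A : ℝ := 2 + l⁻¹ + M * (l⁻¹ * C) + M + C2 with hA
  have hA0 : 0 ≤ M * (l⁻¹ * C) := by positivity
  have hwin : ∀ᶠ T : ℝ in atTop, 2 * T ^ (2 * η) + R ≤ T / 2 := by
    have h1 : ∀ᶠ T : ℝ in atTop, 8 ≤ T ^ (1 / 2 : ℝ) := ev_const (by norm_num)
    filter_upwards [h1, eventually_ge_atTop (4 * R), eventually_ge_atTop (1 : ℝ)] with T h2 h3 h4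
    have h5 : T ^ (2 * η) ≤ T ^ (1 / 2 : ℝ) := Real.rpow_le_rpow_of_exponent_le h4 (by linarith)
    have h6 : T ^ (1 / 2 : ℝ) * T ^ (1 / 2 : ℝ) = T := by
      rw [← Real.rpow_add (by linarith)]; norm_num
    nlinarith
  have hlogge : ∀ᶠ T : ℝ in atTop, 2 / η ≤ Real.log T := Real.tendsto_log_atTop.eventually_ge_atTop _
  filter_upwards [tp_main (ι := Fin k → ℕ) μ w hR hμ (A := 2 * k) hη, sec_close, slow_bound hS hP hη, hwin,
    nik (ι := Fin k → ℕ) (A := 2 * k + 1) (p := p) (η := 2 * η) (by positivity) hp (by positivity),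
    ev_const (η := (1 : ℝ)) (K := M) one_pos,
    eventually_ge_atTop (1 : ℝ), hlogge, eventually_ge_atTop (4 * R + 8)] with T h1 h2 h3 h4 h5 h6 hT1 hlogT hTR
  intro K hK hZ
  rw [Real.rpow_one] at h6
  have hT0 : 0 < T := by linarith
  set N := ⌊T ^ 2⌋₊ with hN
  have hNT : (N : ℝ) ≤ T ^ 2 := Nat.floor_le (by positivity)
  set Y := T ^ η with hY
  have hY1 : 1 ≤ Y := Real.one_le_rpow hT1 hη.le
  have hYk : Y ^ k = T ^ (k * η) := by
    rw [hY, ← Real.rpow_natCast, ← Real.rpow_mul hT0.le]; congr 1; ring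
  have hYk1 : 1 ≤ Y ^ k := one_le_pow₀ hY1
  have hlog : 0 ≤ Real.log T := Real.log_nonneg hT1
  set S := (ix k N).filter fun n => Y < ∏ i, ((n i : ℝ) + 1) with hSdef
  set X := T ^ (2 * η) with hX
  have hX0 : 0 < X := by positivity
  have hX1 : 1 ≤ X := Real.one_le_rpow hT1 (by positivity)
  -- decomposition
  have hdec : ∀ (x : ℝ) (z : ℂ), |x| ≤ 2 * X → 0 ≤ z.re → ‖z‖ ≤ R →
      ‖tp S (cs k (1 / 2) T) (ll k) (x + -(I * z)) - (P.leadingCoeff)⁻¹ *
        P.eval (riemannZeta (((1 / 2 : ℝ) : ℂ) + ((T + x : ℝ) : ℂ) * I + z))‖ ≤ l⁻¹ * (C * (1 + K)) + Y ^ k := by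
    intro x z hx hz1 hz2
    have hs : ((1 / 2 : ℝ) : ℂ) + (T : ℂ) * I + I * ((x : ℂ) + -(I * z)) = ((1 / 2 : ℝ) : ℂ) + ((T + x : ℝ) : ℂ) * I + z := by
      push_cast
      linear_combination (-z) * I_sq
    set s : ℂ := ((1 / 2 : ℝ) : ℂ) + ((T + x : ℝ) : ℂ) * I + z with hsdef
    have hsre : s.re = 1 / 2 + z.re := by rw [hsdef]; simp
    have hsim : s.im = T + x + z.im := by rw [hsdef]; simp
    have hzre := (le_abs_self z.re).trans (Complex.abs_re_le_norm z)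
    have hzim := Complex.abs_im_le_norm z
    have him : |s.im - T| ≤ 2 * X + R := by
      rw [hsim]
      have : T + x + z.im - T = x + z.im := by ring
      rw [this]
      exact (abs_add_le _ _).trans (add_le_add hx (hzim.trans hz2))
    have e1 := hC (riemannZeta s) (sec N s) (h2 s (by rw [hsre]; linarith) (by rw [hsre]; linarith) (him.trans h4))
    rw [← hs, ZA.sec_pow, hs, tp_filter (ix k N) (cs k (1 / 2) T) (ll k) _ (fun n => Y < ∏ i, ((n i : ℝ) + 1)), ← hSdef] at e1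
    have e2 := low_bound k N (by norm_num : (0 : ℝ) ≤ 1 / 2) T ((x : ℂ) + -(I * z)) (by simp; exact hz1) Y hY1
    set LW := tp ((ix k N).filter fun n => ¬ Y < ∏ i, ((n i : ℝ) + 1)) (cs k (1 / 2) T) (ll k) ((x : ℂ) + -(I * z))
    have e3 : C * (1 + ‖riemannZeta s‖ ^ (k - 1)) ≤ C * (1 + K) := by
      have := hZ s (by rw [hsre]; linarith) him
      gcongr
    have hlc : P.leadingCoeff ≠ 0 := Polynomial.leadingCoeff_ne_zero.2 hPne
    have e4 : tp S (cs k (1 / 2) T) (ll k) (x + -(I * z)) - (P.leadingCoeff)⁻¹ * P.eval (riemannZeta s) =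
        -((P.leadingCoeff)⁻¹ * (P.eval (riemannZeta s) - P.leadingCoeff *
          (tp S (cs k (1 / 2) T) (ll k) (x + -(I * z)) + LW))) - LW := by
      field_simp; ring
    rw [e4]
    refine (norm_sub_le _ _).trans (add_le_add ?_ e2)
    rw [norm_neg, norm_mul, norm_inv]
    exact mul_le_mul_of_nonneg_left (e1.trans e3) (by positivity)
  set g : Fin m → ℝ → ℂ := fun j x => tp S (fun n => cs k (1 / 2) T n * tr (μ j) (w j) (ll k n)) (ll k) (x : ℂ) with hg
  set Fj : Fin m → ℝ → ℂ := fun j x => FF (μ j) (w j) P (((1 / 2 : ℝ) : ℂ) + ((T + x : ℝ) : ℂ) * I) with hFj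
  -- the averages
  have hgF : ∀ (j : Fin m) (x : ℝ), |x| ≤ 2 * X → ‖g j x‖ ≤ A * (‖Fj j x‖ + (1 + K) * Y ^ k) := by
    intro j x hx
    have hTx : R < T + x := by
      have := abs_le.1 (hx.trans (by linarith : 2 * X ≤ T / 2))
      linarith
    have hcont1 : Continuous fun z : ℂ => tp S (cs k (1 / 2) T) (ll k) ((x : ℂ) + -(I * z)) :=
      (tp_cont S _ _).comp (by fun_prop)
    have hcont2 : ContinuousOn (fun z : ℂ => (P.leadingCoeff)⁻¹ *
        P.eval (riemannZeta (((1 / 2 : ℝ) : ℂ) + ((T + x : ℝ) : ℂ) * I + z))) (KR R) :=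
      continuousOn_const.mul (P.continuous.comp_continuousOn (zeta_contOn (s := ((1 / 2 : ℝ) : ℂ) + ((T + x : ℝ) : ℂ) * I) (by simpa using hTx)))
    have e0 : g j x = ∫ z, w j z * tp S (cs k (1 / 2) T) (ll k) ((x : ℂ) + -(I * z)) ∂(μ j) := by
      simp only [hg]
      exact mean_tp S _ _ (hμ j) (fun n _ => ll_nonneg k n) x
    have e1 : ∫ z, w j z * tp S (cs k (1 / 2) T) (ll k) ((x : ℂ) + -(I * z)) ∂(μ j) =
        (P.leadingCoeff)⁻¹ * Fj j x +
        ∫ z, w j z * (tp S (cs k (1 / 2) T) (ll k) ((x : ℂ) + -(I * z)) - (P.leadingCoeff)⁻¹ *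
          P.eval (riemannZeta (((1 / 2 : ℝ) : ℂ) + ((T + x : ℝ) : ℂ) * I + z))) ∂(μ j) := by
      simp only [hFj]
      unfold FF
      rw [← integral_const_mul, ← integral_add]
      · refine integral_congr_ae (Filter.Eventually.of_forall fun v => ?_)
        simp only
        ring
      · have := (hμ j).int_cont hcont2
        refine this.congr (Filter.Eventually.of_forall fun v => ?_)
        simp only
        ring
      · exact (hμ j).int_cont (hcont1.continuousOn.sub hcont2)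
    rw [e0, e1]
    refine (norm_add_le _ _).trans ?_
    have e2 : ‖∫ z, w j z * (tp S (cs k (1 / 2) T) (ll k) ((x : ℂ) + -(I * z)) - (P.leadingCoeff)⁻¹ *
        P.eval (riemannZeta (((1 / 2 : ℝ) : ℂ) + ((T + x : ℝ) : ℂ) * I + z))) ∂(μ j)‖ ≤
        M * (l⁻¹ * (C * (1 + K)) + Y ^ k) := by
      have e3 : ‖∫ z, w j z * (tp S (cs k (1 / 2) T) (ll k) ((x : ℂ) + -(I * z)) - (P.leadingCoeff)⁻¹ *
          P.eval (riemannZeta (((1 / 2 : ℝ) : ℂ) + ((T + x : ℝ) : ℂ) * I + z))) ∂(μ j)‖ ≤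
          ∫ z, ‖w j z‖ * (l⁻¹ * (C * (1 + K)) + Y ^ k) ∂(μ j) := by
        refine norm_integral_le_of_norm_le ((hμ j).int.norm.mul_const _) ?_
        filter_upwards [(hμ j).supp] with z hz
        rw [norm_mul]
        exact mul_le_mul_of_nonneg_left (hdec x z hx hz.1 hz.2) (norm_nonneg _)
      refine e3.trans ?_
      rw [integral_mul_const]
      exact mul_le_mul_of_nonneg_right (hMj j) (by positivity)
    rw [norm_mul, norm_inv]
    have hF0 := norm_nonneg (Fj j x)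
    have e5 : M * (l⁻¹ * (C * (1 + K)) + Y ^ k) ≤ (M * (l⁻¹ * C) + M) * ((1 + K) * Y ^ k) := by
      have g1 : M * (l⁻¹ * C) * (1 + K) * 1 ≤ M * (l⁻¹ * C) * (1 + K) * Y ^ k :=
        mul_le_mul_of_nonneg_left hYk1 (by positivity)
      have g2 : M * (1 * Y ^ k) ≤ M * ((1 + K) * Y ^ k) :=
        mul_le_mul_of_nonneg_left (mul_le_mul_of_nonneg_right (by linarith) (by positivity)) hM0
      linarith
    have e6 : 0 ≤ (1 + K) * Y ^ k := by positivity
    calc l⁻¹ * ‖Fj j x‖ + _ ≤ l⁻¹ * ‖Fj j x‖ + (M * (l⁻¹ * C) + M) * ((1 + K) * Y ^ k) :=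
          add_le_add le_rfl (e2.trans e5)
      _ ≤ A * ‖Fj j x‖ + A * ((1 + K) * Y ^ k) := by
          refine add_le_add (mul_le_mul_of_nonneg_right (by rw [hA]; linarith) hF0)
            (mul_le_mul_of_nonneg_right (by rw [hA]; linarith) e6)
      _ = _ := by ring
  set IJ : ℝ := ∑ j, ∫ y in (-(2 * X))..(2 * X), (A * (‖Fj j y‖ + (1 + K) * Y ^ k)) ^ p with hIJ
  have hFcont : ∀ j, ContinuousOn (fun y : ℝ => (A * (‖Fj j y‖ + (1 + K) * Y ^ k)) ^ p) (Set.uIcc (-(2 * X)) (2 * X)) := by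
    intro j y hy
    rw [Set.uIcc_of_le (by linarith)] at hy
    have h7 : R < (((1 / 2 : ℝ) : ℂ) + ((T + y : ℝ) : ℂ) * I).im := by
      simp
      linarith [hy.1]
    have h8 : ContinuousAt (FF (μ j) (w j) P) (((1 / 2 : ℝ) : ℂ) + ((T + y : ℝ) : ℂ) * I) :=
      (FF_deriv (hμ j) P h7).continuousAt
    have h9 : ContinuousAt (Fj j) y :=
      ContinuousAt.comp (f := fun y : ℝ => ((1 / 2 : ℝ) : ℂ) + ((T + y : ℝ) : ℂ) * I) h8 (by fun_prop)
    refine ContinuousAt.continuousWithinAt ?_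
    exact ContinuousAt.rpow_const (by fun_prop) (Or.inr hp0.le)
  have hIJ0 : ∀ j, 0 ≤ ∫ y in (-(2 * X))..(2 * X), (A * (‖Fj j y‖ + (1 + K) * Y ^ k)) ^ p := fun j =>
    intervalIntegral.integral_nonneg (by linarith) fun y _ => Real.rpow_nonneg (by positivity) _
  have hIJj : ∀ j, ∫ y in (-(2 * X))..(2 * X), (A * (‖Fj j y‖ + (1 + K) * Y ^ k)) ^ p ≤ IJ := fun j =>
    Finset.single_le_sum (f := fun j => ∫ y in (-(2 * X))..(2 * X), (A * (‖Fj j y‖ + (1 + K) * Y ^ k)) ^ p)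
      (fun i _ => hIJ0 i) (Finset.mem_univ j)
  have hIJ00 : 0 ≤ IJ := Finset.sum_nonneg fun j _ => hIJ0 j
  set E : ℝ := T ^ ((p + 1) * (2 * η)) * (1 + IJ) with hE
  have hE0 : 0 ≤ E := by positivity
  have hsup : ∀ j, ∀ x : ℝ, |x| ≤ X → ‖g j x‖ ≤ E ^ (1 / p) := by
    intro j x hx
    have hx' := abs_le.1 hx
    have h7 := h5 S (fun n => cs k (1 / 2) T n * tr (μ j) (w j) (ll k n)) (ll k) (by
        intro n hn
        rw [abs_of_nonneg (ll_nonneg k n)]
        have := ll_le k N hT1 hNT (Finset.mem_of_mem_filter n hn)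
        nlinarith)
      (by
        have h8 : nb S (fun n => cs k (1 / 2) T n * tr (μ j) (w j) (ll k n)) ≤ M * (N : ℝ) ^ k := by
          unfold nb
          calc ∑ n ∈ S, ‖cs k (1 / 2) T n * tr (μ j) (w j) (ll k n)‖ ≤ ∑ n ∈ S, ‖cs k (1 / 2) T n‖ * M := by
                refine Finset.sum_le_sum fun n _ => ?_
                rw [norm_mul]
                refine mul_le_mul_of_nonneg_left (le_trans ?_ (hMj j)) (norm_nonneg _)
                exact tr_le (hμ j) (ll_nonneg k n)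
            _ = M * nb S (cs k (1 / 2) T) := by unfold nb; rw [← Finset.sum_mul, mul_comm]
            _ ≤ M * (N : ℝ) ^ k := by
                refine mul_le_mul_of_nonneg_left ?_ hM0
                refine le_trans ?_ (nb_ix k N (by norm_num : (0 : ℝ) ≤ 1 / 2) T)
                unfold nb
                exact Finset.sum_le_sum_of_subset_of_nonneg (Finset.filter_subset _ _) fun _ _ _ => norm_nonneg _
        refine h8.trans ?_
        calc M * (N : ℝ) ^ k ≤ T * (T ^ 2) ^ k := by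
              apply mul_le_mul h6 (pow_le_pow_left₀ (Nat.cast_nonneg _) hNT k) (by positivity) hT0.le
          _ = T ^ (2 * (k : ℝ) + 1) := by
              rw [Real.rpow_add hT0, Real.rpow_one, ← pow_mul, ← Real.rpow_natCast]
              push_cast; ring) x
    have h8 : ∫ y in (x - X)..(x + X), ‖g j y‖ ^ p ≤ IJ := by
      have hgc : Continuous (g j) := tp_cont' _ _ _
      have hgq : Continuous fun y : ℝ => ‖g j y‖ ^ p := hgc.norm.rpow_const fun _ => Or.inr hp0.le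
      have hsub : Set.uIcc (x - X) (x + X) ⊆ Set.uIcc (-(2 * X)) (2 * X) := by
        rw [Set.uIcc_of_le (by linarith), Set.uIcc_of_le (by linarith)]
        exact Set.Icc_subset_Icc (by linarith) (by linarith)
      calc ∫ y in (x - X)..(x + X), ‖g j y‖ ^ p
          ≤ ∫ y in (x - X)..(x + X), (A * (‖Fj j y‖ + (1 + K) * Y ^ k)) ^ p := by
            refine intervalIntegral.integral_mono_on (by linarith) (hgq.intervalIntegrable _ _)
              ((hFcont j).mono hsub).intervalIntegrable fun y hy => ?_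
            exact Real.rpow_le_rpow (norm_nonneg _) (hgF j y (by rw [abs_le]; constructor <;> linarith [hy.1, hy.2])) hp0.le
        _ ≤ ∫ y in (-(2 * X))..(2 * X), (A * (‖Fj j y‖ + (1 + K) * Y ^ k)) ^ p := by
            refine intervalIntegral.integral_mono_interval (by linarith) (by linarith) (by linarith)
              (Filter.Eventually.of_forall fun y => Real.rpow_nonneg (by positivity) _) (hFcont j).intervalIntegrable
        _ ≤ IJ := hIJj j
    have h9 : ‖g j x‖ ^ p ≤ E := by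
      refine h7.trans ?_
      rw [hE]
      gcongr
    calc ‖g j x‖ = (‖g j x‖ ^ p) ^ (1 / p) := by
          rw [← Real.rpow_mul (norm_nonneg _), mul_one_div_cancel hp0.ne', Real.rpow_one]
      _ ≤ E ^ (1 / p) := Real.rpow_le_rpow (by positivity) h9 (by positivity)
  have hH0 : 0 ≤ E ^ (1 / p) := Real.rpow_nonneg hE0 _
  have hkey := h1 S (cs k (1 / 2) T) (ll k) (η * Real.log T) (2 * k * Real.log T) (E ^ (1 / p))
    (by rw [div_le_iff₀ hη] at hlogT; linarith) (by nlinarith) (by nlinarith)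
    (by
      intro n hn
      refine ⟨?_, ll_le k N hT1 hNT (Finset.mem_of_mem_filter n hn)⟩
      rw [hSdef, Finset.mem_filter] at hn
      rw [ll_eq, ← Real.log_rpow hT0]
      exact Real.log_le_log (by positivity) hn.2.le)
    (by
      unfold nb
      calc _ ≤ ∑ n ∈ ix k N, ‖cs k (1 / 2) T n‖ :=
            Finset.sum_le_sum_of_subset_of_nonneg (Finset.filter_subset _ _) fun _ _ _ => norm_nonneg _
        _ ≤ (N : ℝ) ^ k := nb_ix k N (by norm_num : (0 : ℝ) ≤ 1 / 2) T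
        _ ≤ (T ^ 2) ^ k := pow_le_pow_left₀ (Nat.cast_nonneg _) hNT k
        _ = T ^ ((2 * k : ℝ)) := by
          rw [← pow_mul, ← Real.rpow_natCast]; push_cast; ring_nf)
    h3 hH0 hsup
  -- final estimate
  have e0 : ∑ n ∈ S, cs k (1 / 2) T n = tp S (cs k (1 / 2) T) (ll k) 0 := by
    unfold tp; simp
  have hs0 : ((1 / 2 : ℝ) : ℂ) + (T : ℂ) * I + I * 0 = ((1 / 2 : ℝ) : ℂ) + (T : ℂ) * I := by ring
  have hre0 : (((1 / 2 : ℝ) : ℂ) + (T : ℂ) * I).re = 1 / 2 := by simp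
  have him0 : (((1 / 2 : ℝ) : ℂ) + (T : ℂ) * I).im = T := by simp
  have hzl : zl T = riemannZeta (((1 / 2 : ℝ) : ℂ) + (T : ℂ) * I) := by
    unfold zl; push_cast; rfl
  have e1 := hC2 (riemannZeta (((1 / 2 : ℝ) : ℂ) + (T : ℂ) * I)) (sec N (((1 / 2 : ℝ) : ℂ) + (T : ℂ) * I)) (by
    exact h2 (((1 / 2 : ℝ) : ℂ) + (T : ℂ) * I) (by rw [hre0]) (by rw [hre0]; linarith)
      (by rw [him0, sub_self, abs_zero]; linarith))
  rw [Polynomial.leadingCoeff_X_pow, Polynomial.natDegree_X_pow, Polynomial.eval_pow, Polynomial.eval_X,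
    one_mul, ← hs0, ZA.sec_pow, tp_filter (ix k N) (cs k (1 / 2) T) (ll k) 0 (fun n => Y < ∏ i, ((n i : ℝ) + 1)), ← hSdef, hs0] at e1
  have e2 := low_bound k N (by norm_num : (0 : ℝ) ≤ 1 / 2) T 0 (by simp) Y hY1
  set LW := tp ((ix k N).filter fun n => ¬ Y < ∏ i, ((n i : ℝ) + 1)) (cs k (1 / 2) T) (ll k) 0
  have e3 : ‖riemannZeta (((1 / 2 : ℝ) : ℂ) + (T : ℂ) * I)‖ ^ (k - 1) ≤ K := by
    exact hZ (((1 / 2 : ℝ) : ℂ) + (T : ℂ) * I) (by rw [hre0]) (by rw [him0, sub_self, abs_zero]; positivity)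
  rw [hzl]
  have e4 : ‖riemannZeta (((1 / 2 : ℝ) : ℂ) + (T : ℂ) * I)‖ ^ k ≤ Y * (1 + E ^ (1 / p)) + Y ^ k + C2 * (1 + K) := by
    calc ‖riemannZeta (((1 / 2 : ℝ) : ℂ) + (T : ℂ) * I)‖ ^ k = ‖(riemannZeta (((1 / 2 : ℝ) : ℂ) + (T : ℂ) * I) ^ k - (tp S (cs k (1 / 2) T) (ll k) 0 + LW)) + (∑ n ∈ S, cs k (1 / 2) T n + LW)‖ := by
          rw [← norm_pow, e0]; congr 1; ring
      _ ≤ C2 * (1 + K) + (Y * (1 + E ^ (1 / p)) + Y ^ k) := by
          refine (norm_add_le _ _).trans (add_le_add (e1.trans ?_) ((norm_add_le _ _).trans (add_le_add hkey e2)))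
          gcongr
      _ = _ := by ring
  rw [← hYk]
  have hA2 : 2 + C2 ≤ A := by rw [hA]; linarith
  set H := E ^ (1 / p) with hHdef
  have f0 : Y ≤ Y ^ k := by
    calc Y = Y ^ 1 := (pow_one _).symm
      _ ≤ Y ^ k := pow_le_pow_right₀ hY1 hP
  calc ‖riemannZeta (((1 / 2 : ℝ) : ℂ) + (T : ℂ) * I)‖ ^ k ≤ Y * (1 + H) + Y ^ k + C2 * (1 + K) := e4
    _ ≤ Y ^ k * (1 + Y * H) + Y ^ k * (1 + K + Y * H) + C2 * (Y ^ k * (1 + K + Y * H)) := by
        have g1 : Y * (1 + H) ≤ Y ^ k * (1 + Y * H) := by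
          have : Y * H ≤ Y ^ k * (Y * H) := le_mul_of_one_le_left (by positivity) hYk1
          nlinarith
        have g2 : Y ^ k ≤ Y ^ k * (1 + K + Y * H) := le_mul_of_one_le_right (by positivity) (by
          have : 0 ≤ Y * H := by positivity
          linarith)
        have g3 : C2 * (1 + K) ≤ C2 * (Y ^ k * (1 + K + Y * H)) := by
          refine mul_le_mul_of_nonneg_left ?_ hC20
          have : 0 ≤ Y * H := by positivity
          nlinarith
        linarith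
    _ ≤ (2 + C2) * (Y ^ k * (1 + K + Y * H)) := by
        have : Y ^ k * (1 + Y * H) ≤ Y ^ k * (1 + K + Y * H) :=
          mul_le_mul_of_nonneg_left (by linarith) (by positivity)
        linarith
    _ ≤ A * (Y ^ k * (1 + K + Y * H)) := mul_le_mul_of_nonneg_right hA2 (by positivity)
    _ = A * Y ^ k * (1 + K + Y * H) := by ring

end Pool.Agent.H60.ME
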