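import Pool.Agent.H60.ME.Pt

/-! The pointwise inequality with integrals over windows. -/

set_option autoImplicit false

open Complex MeasureTheory Finset Filter Topology
open Pool.Agent.R747.TL Pool.Agent.TH804.SS Pool.Agent.H60.WM Pool.Agent.H60.ZA

namespace Pool.Agent.H60.ME

/-- a bound for the powers of zeta to the right -/
theorem kbound {k : ℕ} (hk : 0 < k) {R p η : ℝ} (hR : 0 ≤ R) (hp : 1 ≤ p) (hη : 0 < η) (hη1 : η ≤ 1 / 8) :
    ∃ D : ℝ, 1 ≤ D ∧ ∀ᶠ t : ℝ in atTop, ∃ K : ℝ, 0 ≤ K ∧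
      (∀ s : ℂ, 1 / 2 ≤ s.re → |s.im - t| ≤ 2 * t ^ (2 * η) + R → ‖riemannZeta s‖ ^ (k - 1) ≤ K) ∧
      K ^ p ≤ D * t ^ (((k - 1) * p + 3) * (4 * η)) *
        (1 + ∫ y in (-(2 * t ^ (4 * η)))..(2 * t ^ (4 * η)), ‖zl (t + y)‖ ^ (((k : ℝ) - 1) * p)) := by
  have hk1 : (1 : ℝ) ≤ k := by exact_mod_cast hk
  have hp0 : 0 < p := by linarith
  set q : ℝ := ((k : ℝ) - 1) * p with hq
  have hq0 : 0 ≤ q := mul_nonneg (by linarith) hp0.le
  have hcont : ∀ t : ℝ, Continuous fun y : ℝ => ‖zl (t + y)‖ ^ q := fun t =>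
    (zl_cont'.norm).rpow_const fun _ => Or.inr hq0
  have hI0 : ∀ t : ℝ, 0 ≤ t → 0 ≤ ∫ y in (-(2 * t ^ (4 * η)))..(2 * t ^ (4 * η)), ‖zl (t + y)‖ ^ q := fun t ht =>
    intervalIntegral.integral_nonneg (by have := Real.rpow_nonneg ht (4 * η); linarith) fun y _ => by positivity
  rcases Nat.eq_or_lt_of_le hk with h | h
  · refine ⟨1, le_rfl, ?_⟩
    filter_upwards [eventually_ge_atTop (1 : ℝ)] with t ht
    refine ⟨1, zero_le_one, fun s _ _ => ?_, ?_⟩
    · rw [← h]; simp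
    · rw [Real.one_rpow, one_mul]
      refine one_le_mul_of_one_le_of_one_le (Real.one_le_rpow ht (by positivity)) ?_
      linarith [hI0 t (by linarith)]
  · have hk2 : (2 : ℝ) ≤ k := by exact_mod_cast h
    have hq1 : 1 ≤ q := by rw [hq]; nlinarith
    refine ⟨82 ^ q * 2, ?_, ?_⟩
    · have : (1 : ℝ) ≤ 82 ^ q := Real.one_le_rpow (by norm_num) hq0
      linarith
    filter_upwards [sup_line (q := q) (η := 4 * η) hq1 (by positivity) (by linarith),
      rb_local (η := η) hη (by linarith), eventually_ge_atTop (256 : ℝ), ev_const (K := R + 4) (show 0 < 2 * η by linarith),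
      eventually_ge_atTop (16 * R)]
      with t h1 h2 h3 h4 h5
    have ht0 : 0 < t := by linarith
    have ht1 : 1 ≤ t := by linarith
    set IZ : ℝ := ∫ y in (-(2 * t ^ (4 * η)))..(2 * t ^ (4 * η)), ‖zl (t + y)‖ ^ q with hIZ
    have hIZ0 : 0 ≤ IZ := hI0 t ht0.le
    set E : ℝ := t ^ ((q + 3) * (4 * η)) * (1 + IZ) with hE
    have hE0 : 0 ≤ E := by positivity
    have hE1 : 1 ≤ E := one_le_mul_of_one_le_of_one_le (Real.one_le_rpow ht1 (by positivity)) (by linarith)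
    set H : ℝ := E ^ (1 / q) with hH
    have hH0 : 0 ≤ H := Real.rpow_nonneg hE0 _
    have hX4 : t ^ (4 * η) = t ^ (2 * η) * t ^ (2 * η) := by rw [← Real.rpow_add ht0]; ring_nf
    have hX0 : 0 < t ^ (2 * η) := Real.rpow_pos_of_pos ht0 _
    have hXη : t ^ η ≤ t ^ (2 * η) := Real.rpow_le_rpow_of_exponent_le ht1 (by linarith)
    have hV : 2 * t ^ (2 * η) + R + t ^ η ≤ t ^ (4 * η) := by
      rw [hX4]
      have : t ^ (2 * η) ≥ 1 := Real.one_le_rpow ht1 (by positivity)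
      nlinarith
    have hVt : 2 * t ^ (2 * η) + R ≤ t / 4 := by
      have g1 : t ^ (2 * η) ≤ t ^ (1 / 4 : ℝ) := Real.rpow_le_rpow_of_exponent_le ht1 (by linarith)
      have g2 : t ^ (1 / 4 : ℝ) * t ^ (3 / 4 : ℝ) = t := by rw [← Real.rpow_add ht0]; norm_num
      have g3 : 16 ≤ t ^ (3 / 4 : ℝ) := by
        calc (16 : ℝ) ≤ 64 := by norm_num
          _ = 256 ^ (3 / 4 : ℝ) := by
              rw [show (256 : ℝ) = 4 ^ (4 : ℝ) by norm_num, ← Real.rpow_mul (by norm_num)]; norm_num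
          _ ≤ _ := Real.rpow_le_rpow (by norm_num) h3 (by norm_num)
      have g4 : 0 < t ^ (1 / 4 : ℝ) := Real.rpow_pos_of_pos ht0 _
      nlinarith
    have hline : ∀ x : ℝ, |x| ≤ t ^ (4 * η) → ‖zl (t + x)‖ ≤ H := by
      intro x hx
      have h6 := h1 x hx
      calc ‖zl (t + x)‖ = (‖zl (t + x)‖ ^ q) ^ (1 / q) := by
            rw [← Real.rpow_mul (norm_nonneg _), mul_one_div_cancel (by linarith), Real.rpow_one]
        _ ≤ H := Real.rpow_le_rpow (by positivity) h6 (by positivity)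
    have hright := h2 (2 * t ^ (2 * η) + R) H (by positivity) hVt hH0
      (fun x hx => hline x (hx.trans hV))
    refine ⟨(41 * (1 + H)) ^ (k - 1), by positivity, fun s hs1 hs2 =>
      pow_le_pow_left₀ (norm_nonneg _) (hright s hs1 hs2) _, ?_⟩
    have e1 : ((41 * (1 + H)) ^ (k - 1)) ^ p = (41 * (1 + H)) ^ q := by
      rw [← Real.rpow_natCast, ← Real.rpow_mul (by positivity), Nat.cast_sub hk]
      push_cast
      rfl
    rw [e1]
    have e2 : H ^ q = E := by
      rw [hH, ← Real.rpow_mul hE0, one_div_mul_cancel (by linarith), Real.rpow_one]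
    calc (41 * (1 + H)) ^ q = 41 ^ q * (1 + H) ^ q := Real.mul_rpow (by norm_num) (by linarith)
      _ ≤ 41 ^ q * (2 ^ q * (1 ^ q + H ^ q)) := by
          gcongr
          exact add_rpow_le zero_le_one hH0 hq0
      _ = 82 ^ q * (1 + E) := by
          rw [Real.one_rpow, e2, ← mul_assoc, ← Real.mul_rpow (by norm_num) (by norm_num)]; norm_num
      _ ≤ 82 ^ q * (2 * E) := by gcongr; linarith
      _ = 82 ^ q * 2 * t ^ ((q + 3) * (4 * η)) * (1 + IZ) := by rw [hE]; ring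

/-- the function on the line -/
noncomputable def Fl (μ : Measure ℂ) (w : ℂ → ℂ) (P : Polynomial ℂ) (t : ℝ) : ℂ :=
  FF μ w P ((1 / 2 : ℝ) + (t : ℂ) * I)

lemma Fl_cont {μ : Measure ℂ} {w : ℂ → ℂ} {R : ℝ} (hg : Good μ w R) (P : Polynomial ℂ) {t : ℝ} (ht : R < t) :
    ContinuousAt (Fl μ w P) t := by
  have h8 : ContinuousAt (FF μ w P) (((1 / 2 : ℝ) : ℂ) + (t : ℂ) * I) :=
    (FF_deriv hg P (by simpa using ht)).continuousAt
  exact ContinuousAt.comp (f := fun y : ℝ => ((1 / 2 : ℝ) : ℂ) + (y : ℂ) * I) h8 (by fun_prop)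

theorem ptw {m : ℕ} {μ : Fin m → Measure ℂ} {w : Fin m → ℂ → ℂ} {R : ℝ} (hR : 0 ≤ R)
    (hμ : ∀ j, Good (μ j) (w j) R) (hS : Slow μ w) (P : Polynomial ℂ) (hP : 0 < P.natDegree)
    {p ε : ℝ} (hp : 1 ≤ p) (hε : 0 < ε) (hε1 : ε ≤ 1 / 2) : ∀ᶠ t : ℝ in atTop,
      ‖zl t‖ ^ (P.natDegree * p) ≤ t ^ ε * (1 + (∑ j, ∫ y in (t - t ^ ε)..(t + t ^ ε), ‖Fl (μ j) (w j) P y‖ ^ p) +
        ∫ y in (t - t ^ ε)..(t + t ^ ε), ‖zl y‖ ^ (((P.natDegree : ℝ) - 1) * p)) := by
  set k := P.natDegree with hk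
  have hk1 : (1 : ℝ) ≤ k := by exact_mod_cast hP
  have hp0 : 0 < p := by linarith
  set q : ℝ := ((k : ℝ) - 1) * p with hq
  have hq0 : 0 ≤ q := mul_nonneg (by linarith) hp0.le
  set c : ℝ := 2 * k * p + 3 * p + 4 * q + 20 with hc
  have hc0 : 20 ≤ c := by
    have : 0 ≤ 2 * (k : ℝ) * p := by positivity
    linarith
  set η : ℝ := ε / c with hη
  have hη0 : 0 < η := by positivity
  have hηc : η * c = ε := by rw [hη]; field_simp
  have hη1 : η ≤ 1 / 8 := by nlinarith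
  obtain ⟨A, hA1, hcomp⟩ := comp hR hμ hS P hP hη0 hη1 hp
  obtain ⟨D, hD1, hkb⟩ := kbound hP hR hp hη0 hη1
  set C1 : ℝ := A ^ p * 4 ^ p * (3 * (1 + (2 * A) ^ p * (1 + m * 4 * (2 ^ p * 2)))) with hC1
  filter_upwards [hcomp, hkb, ev_const (K := C1 * (3 * D)) hη0, eventually_ge_atTop (4 : ℝ),
    ev_const (K := 2) (show 0 < ε / 2 by positivity), eventually_gt_atTop (2 * R)] with t h1 h2 h3 h4 h5 h6
  obtain ⟨K, hK0, hK1, hK2⟩ := h2
  have h7 := h1 K hK0 hK1
  have ht0 : 0 < t := by linarith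
  have ht1 : 1 ≤ t := by linarith
  set X := t ^ (2 * η) with hX
  have hX1 : 1 ≤ X := Real.one_le_rpow ht1 (by positivity)
  set Yk := t ^ (k * η) with hYk
  have hYk1 : 1 ≤ Yk := Real.one_le_rpow ht1 (by positivity)
  have hA0 : 0 < A := by linarith
  -- windows
  have hwX : 2 * X ≤ t ^ ε := by
    calc 2 * X ≤ t ^ (ε / 2) * t ^ (ε / 2) := by
          apply mul_le_mul h5 _ (by positivity) (by positivity)
          exact Real.rpow_le_rpow_of_exponent_le ht1 (by nlinarith)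
      _ = t ^ ε := by rw [← Real.rpow_add ht0]; ring_nf
  have hw4 : 2 * t ^ (4 * η) ≤ t ^ ε := by
    calc 2 * t ^ (4 * η) ≤ t ^ (ε / 2) * t ^ (ε / 2) := by
          apply mul_le_mul h5 _ (by positivity) (by positivity)
          exact Real.rpow_le_rpow_of_exponent_le ht1 (by nlinarith)
      _ = t ^ ε := by rw [← Real.rpow_add ht0]; ring_nf
  have htε : t ^ ε ≤ t / 2 := by
    have g1 : t ^ ε ≤ t ^ (1 / 2 : ℝ) := Real.rpow_le_rpow_of_exponent_le ht1 hε1
    have g2 : t ^ (1 / 2 : ℝ) * t ^ (1 / 2 : ℝ) = t := by rw [← Real.rpow_add ht0]; norm_num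
    have g3 : 2 ≤ t ^ (1 / 2 : ℝ) := by
      calc (2 : ℝ) = 4 ^ (1 / 2 : ℝ) := by
            rw [show (4 : ℝ) = 2 ^ (2 : ℝ) by norm_num, ← Real.rpow_mul (by norm_num)]; norm_num
        _ ≤ _ := Real.rpow_le_rpow (by norm_num) h4 (by norm_num)
    nlinarith
  -- the integrals of the averages
  set FI : ℝ := ∑ j, ∫ y in (t - t ^ ε)..(t + t ^ ε), ‖Fl (μ j) (w j) P y‖ ^ p with hFI
  have hFc : ∀ j, ContinuousOn (fun y : ℝ => ‖Fl (μ j) (w j) P y‖ ^ p) (Set.Icc (t - t ^ ε) (t + t ^ ε)) := by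
    intro j y hy
    have : R < y := by linarith [hy.1]
    exact ((Fl_cont (hμ j) P this).norm.rpow_const (Or.inr hp0.le)).continuousWithinAt
  have hFint : ∀ j, ∫ y in (-(2 * X))..(2 * X), ‖Fl (μ j) (w j) P (t + y)‖ ^ p ≤
      ∫ y in (t - t ^ ε)..(t + t ^ ε), ‖Fl (μ j) (w j) P y‖ ^ p := by
    intro j
    rw [intervalIntegral.integral_comp_add_left (fun y => ‖Fl (μ j) (w j) P y‖ ^ p) t]
    refine intervalIntegral.integral_mono_interval (by linarith) (by linarith) (by linarith)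
      (Filter.Eventually.of_forall fun y => by positivity) ?_
    exact ContinuousOn.intervalIntegrable (by rw [Set.uIcc_of_le (by linarith)]; exact hFc j)
  have hFI0 : 0 ≤ FI := Finset.sum_nonneg fun j _ =>
    intervalIntegral.integral_nonneg (by linarith) fun y _ => by positivity
  set IZ : ℝ := ∫ y in (t - t ^ ε)..(t + t ^ ε), ‖zl y‖ ^ q with hIZ
  have hzc : Continuous fun y : ℝ => ‖zl y‖ ^ q := zl_cont.norm.rpow_const fun _ => Or.inr hq0
  have hIZ0 : 0 ≤ IZ := intervalIntegral.integral_nonneg (by linarith) fun y _ => by positivity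
  have hZint : ∫ y in (-(2 * t ^ (4 * η)))..(2 * t ^ (4 * η)), ‖zl (t + y)‖ ^ q ≤ IZ := by
    rw [intervalIntegral.integral_comp_add_left (fun y => ‖zl y‖ ^ q) t]
    have : 0 ≤ t ^ (4 * η) := by positivity
    exact intervalIntegral.integral_mono_interval (by linarith) (by linarith) (by linarith)
      (Filter.Eventually.of_forall fun y => by positivity) (hzc.intervalIntegrable _ _)
  -- the bound for `K`
  have hKp : 1 + K ^ p ≤ 2 * D * t ^ ((q + 3) * (4 * η)) * (1 + IZ) := by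
    have e1 : K ^ p ≤ D * t ^ ((q + 3) * (4 * η)) * (1 + IZ) := hK2.trans (by gcongr)
    have e2 : 1 ≤ D * t ^ ((q + 3) * (4 * η)) * (1 + IZ) :=
      one_le_mul_of_one_le_of_one_le (one_le_mul_of_one_le_of_one_le hD1 (Real.one_le_rpow ht1 (by positivity))) (by linarith)
    linarith
  have hKp0 : 0 ≤ K ^ p := Real.rpow_nonneg hK0 _
  -- the sum of the integrals
  have hsumI : (∑ j, ∫ y in (-(2 * X))..(2 * X),
      (A * (‖FF (μ j) (w j) P ((1 / 2 : ℝ) + ((t + y : ℝ) : ℂ) * I)‖ + (1 + K) * Yk)) ^ p) ≤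
      (2 * A) ^ p * (FI + m * (4 * X) * (2 ^ p * (1 + K ^ p) * Yk ^ p)) := by
    have hj : ∀ j, ∫ y in (-(2 * X))..(2 * X),
        (A * (‖FF (μ j) (w j) P ((1 / 2 : ℝ) + ((t + y : ℝ) : ℂ) * I)‖ + (1 + K) * Yk)) ^ p ≤
        (2 * A) ^ p * ((∫ y in (t - t ^ ε)..(t + t ^ ε), ‖Fl (μ j) (w j) P y‖ ^ p) + (4 * X) * (2 ^ p * (1 + K ^ p) * Yk ^ p)) := by
      intro j
      have hFc2 : ContinuousOn (fun y : ℝ => ‖Fl (μ j) (w j) P (t + y)‖ ^ p) (Set.uIcc (-(2 * X)) (2 * X)) := by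
        rw [Set.uIcc_of_le (by linarith)]
        exact (hFc j).comp (by fun_prop : Continuous fun y : ℝ => t + y).continuousOn fun y hy =>
          ⟨by linarith [hy.1], by linarith [hy.2]⟩
      have hFc3 : ContinuousOn (fun y : ℝ => (A * (‖FF (μ j) (w j) P ((1 / 2 : ℝ) + ((t + y : ℝ) : ℂ) * I)‖ + (1 + K) * Yk)) ^ p)
          (Set.uIcc (-(2 * X)) (2 * X)) := by
        intro y hy
        rw [Set.uIcc_of_le (by linarith)] at hy
        have g1 : ContinuousAt (fun y : ℝ => Fl (μ j) (w j) P (t + y)) y :=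
          ContinuousAt.comp (f := fun y : ℝ => t + y) (Fl_cont (hμ j) P (by linarith [hy.1])) (by fun_prop)
        refine ContinuousAt.continuousWithinAt ?_
        exact ContinuousAt.rpow_const (continuousAt_const.mul (g1.norm.add continuousAt_const)) (Or.inr hp0.le)
      have hb0 : 0 ≤ (1 + K) * Yk := by positivity
      calc _ ≤ ∫ y in (-(2 * X))..(2 * X), (2 * A) ^ p * (‖Fl (μ j) (w j) P (t + y)‖ ^ p + 2 ^ p * (1 + K ^ p) * Yk ^ p) := by
            refine intervalIntegral.integral_mono_on (by linarith) hFc3.intervalIntegrable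
              ((hFc2.add continuousOn_const).const_mul ((2 * A) ^ p)).intervalIntegrable fun y _ => ?_
            have g2 := add_rpow_le (norm_nonneg (Fl (μ j) (w j) P (t + y))) hb0 hp0.le
            have g3 : ((1 + K) * Yk) ^ p ≤ 2 ^ p * (1 + K ^ p) * Yk ^ p := by
              rw [Real.mul_rpow (by linarith) (by linarith)]
              refine mul_le_mul_of_nonneg_right ?_ (by positivity)
              have := add_rpow_le zero_le_one hK0 hp0.le
              rwa [Real.one_rpow] at this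
            calc (A * (‖FF (μ j) (w j) P ((1 / 2 : ℝ) + ((t + y : ℝ) : ℂ) * I)‖ + (1 + K) * Yk)) ^ p
                = A ^ p * (‖Fl (μ j) (w j) P (t + y)‖ + (1 + K) * Yk) ^ p := Real.mul_rpow hA0.le (by positivity)
              _ ≤ A ^ p * (2 ^ p * (‖Fl (μ j) (w j) P (t + y)‖ ^ p + 2 ^ p * (1 + K ^ p) * Yk ^ p)) := by
                  refine mul_le_mul_of_nonneg_left (g2.trans ?_) (by positivity)
                  exact mul_le_mul_of_nonneg_left (by linarith) (by positivity)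
              _ = _ := by rw [Real.mul_rpow (by norm_num) hA0.le]; ring
        _ = (2 * A) ^ p * ((∫ y in (-(2 * X))..(2 * X), ‖Fl (μ j) (w j) P (t + y)‖ ^ p) + (4 * X) * (2 ^ p * (1 + K ^ p) * Yk ^ p)) := by
            rw [intervalIntegral.integral_const_mul, intervalIntegral.integral_add hFc2.intervalIntegrable intervalIntegrable_const,
              intervalIntegral.integral_const, smul_eq_mul]
            ring
        _ ≤ _ := by
            refine mul_le_mul_of_nonneg_left (add_le_add (hFint j) le_rfl) (by positivity)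
    calc _ ≤ ∑ j, (2 * A) ^ p * ((∫ y in (t - t ^ ε)..(t + t ^ ε), ‖Fl (μ j) (w j) P y‖ ^ p) + (4 * X) * (2 ^ p * (1 + K ^ p) * Yk ^ p)) :=
          Finset.sum_le_sum fun j _ => hj j
      _ = _ := by
          rw [← Finset.mul_sum, Finset.sum_add_distrib, Finset.sum_const, Finset.card_univ, Fintype.card_fin, nsmul_eq_mul]
          ring
  set SI : ℝ := ∑ j, ∫ y in (-(2 * X))..(2 * X),
      (A * (‖FF (μ j) (w j) P ((1 / 2 : ℝ) + ((t + y : ℝ) : ℂ) * I)‖ + (1 + K) * Yk)) ^ p with hSI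
  have hSI0 : 0 ≤ SI := Finset.sum_nonneg fun j _ => intervalIntegral.integral_nonneg (by linarith) fun y _ => by positivity
  set Q := t ^ ((p + 1) * (2 * η)) with hQ
  have hQ1 : 1 ≤ Q := Real.one_le_rpow ht1 (by positivity)
  set G : ℝ := 1 + FI + (1 + K ^ p) with hG
  have hG2 : 2 ≤ G := by rw [hG]; linarith
  have hYkp : Yk ^ p = t ^ (k * p * η) := by rw [hYk, ← Real.rpow_mul ht0.le]; congr 1; ring
  have hYkp1 : 1 ≤ Yk ^ p := Real.one_le_rpow hYk1 hp0.le
  have hE : Q * (1 + SI) ≤ Q * X * Yk ^ p * ((1 + (2 * A) ^ p * (1 + m * 4 * (2 ^ p * 2))) * G) := by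
    have g1 : 1 + SI ≤ X * Yk ^ p * ((1 + (2 * A) ^ p * (1 + m * 4 * (2 ^ p * 2))) * G) := by
      have hXY : 1 ≤ X * Yk ^ p := one_le_mul_of_one_le_of_one_le hX1 hYkp1
      have hm : (0 : ℝ) ≤ m := Nat.cast_nonneg m
      have hAp : 0 ≤ (2 * A) ^ p := by positivity
      have g2 : 1 ≤ X * Yk ^ p * (1 * G) := one_le_mul_of_one_le_of_one_le hXY (by linarith)
      have g3 : (2 * A) ^ p * FI ≤ X * Yk ^ p * ((2 * A) ^ p * (1 * G)) := by
        calc (2 * A) ^ p * FI ≤ (2 * A) ^ p * (1 * G) := mul_le_mul_of_nonneg_left (by rw [hG]; linarith) hAp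
          _ ≤ X * Yk ^ p * ((2 * A) ^ p * (1 * G)) := le_mul_of_one_le_left (by positivity) hXY
      have g4 : (2 * A) ^ p * (m * (4 * X) * (2 ^ p * (1 + K ^ p) * Yk ^ p)) ≤
          X * Yk ^ p * ((2 * A) ^ p * ((m * 4 * (2 ^ p * 2)) * G)) := by
        have : (1 + K ^ p) ≤ 2 * G := by rw [hG]; linarith
        calc (2 * A) ^ p * (m * (4 * X) * (2 ^ p * (1 + K ^ p) * Yk ^ p))
            = X * Yk ^ p * ((2 * A) ^ p * (m * 4 * 2 ^ p * (1 + K ^ p))) := by ring
          _ ≤ X * Yk ^ p * ((2 * A) ^ p * (m * 4 * 2 ^ p * (2 * G))) := by gcongr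
          _ = _ := by ring
      calc 1 + SI ≤ 1 + (2 * A) ^ p * (FI + m * (4 * X) * (2 ^ p * (1 + K ^ p) * Yk ^ p)) := by linarith
        _ ≤ X * Yk ^ p * (1 * G) + X * Yk ^ p * ((2 * A) ^ p * (1 * G)) + X * Yk ^ p * ((2 * A) ^ p * ((m * 4 * (2 ^ p * 2)) * G)) := by
            linarith
        _ = _ := by ring
    calc Q * (1 + SI) ≤ Q * (X * Yk ^ p * ((1 + (2 * A) ^ p * (1 + m * 4 * (2 ^ p * 2))) * G)) :=
          mul_le_mul_of_nonneg_left g1 (by linarith)
      _ = _ := by ring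
  set E := Q * (1 + SI) with hEdef
  have hE0 : 0 ≤ E := by positivity
  have hEp : (E ^ (1 / p)) ^ p = E := by rw [← Real.rpow_mul hE0, one_div_mul_cancel hp0.ne', Real.rpow_one]
  have hH0 : 0 ≤ E ^ (1 / p) := Real.rpow_nonneg hE0 _
  have htp : (t ^ η) ^ p = t ^ (p * η) := by rw [← Real.rpow_mul ht0.le]; congr 1; ring
  set M0 : ℝ := 1 + (2 * A) ^ p * (1 + m * 4 * (2 ^ p * 2)) with hM0
  have hM01 : 1 ≤ M0 := by
    have : 0 ≤ (2 * A) ^ p * (1 + m * 4 * (2 ^ p * 2)) := by positivity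
    linarith
  have h2p : (1 : ℝ) ≤ 2 ^ p := Real.one_le_rpow (by norm_num) hp0.le
  calc ‖zl t‖ ^ (k * p) = (‖zl t‖ ^ k) ^ p := by
        rw [← Real.rpow_natCast, ← Real.rpow_mul (norm_nonneg _)]
    _ ≤ (A * Yk * (1 + K + t ^ η * E ^ (1 / p))) ^ p := Real.rpow_le_rpow (by positivity) h7 hp0.le
    _ = A ^ p * Yk ^ p * (1 + K + t ^ η * E ^ (1 / p)) ^ p := by
        rw [Real.mul_rpow (by positivity) (by positivity), Real.mul_rpow hA0.le (by positivity)]
    _ ≤ A ^ p * Yk ^ p * (4 ^ p * (1 + K ^ p + t ^ (p * η) * E)) := by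
        refine mul_le_mul_of_nonneg_left ?_ (by positivity)
        have g1 := add_rpow_le (a := 1 + K) (b := t ^ η * E ^ (1 / p)) (by positivity) (by positivity) hp0.le
        have g2 := add_rpow_le zero_le_one hK0 hp0.le
        rw [Real.one_rpow] at g2
        rw [Real.mul_rpow (by positivity) hH0, hEp, htp] at g1
        have g3 : 0 ≤ t ^ (p * η) * E := by positivity
        have g4 : (4 : ℝ) ^ p = 2 ^ p * 2 ^ p := by rw [← Real.mul_rpow (by norm_num) (by norm_num)]; norm_num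
        calc (1 + K + t ^ η * E ^ (1 / p)) ^ p ≤ 2 ^ p * ((1 + K) ^ p + t ^ (p * η) * E) := g1
          _ ≤ 2 ^ p * (2 ^ p * (1 + K ^ p) + 2 ^ p * (t ^ (p * η) * E)) := by
              refine mul_le_mul_of_nonneg_left (add_le_add g2 ?_) (by positivity)
              exact le_mul_of_one_le_left g3 h2p
          _ = _ := by rw [g4]; ring
    _ ≤ A ^ p * Yk ^ p * (4 ^ p * (t ^ (p * η) * (Q * X * Yk ^ p) * (2 * M0 * G))) := by
        refine mul_le_mul_of_nonneg_left (mul_le_mul_of_nonneg_left ?_ (by positivity)) (by positivity)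
        have hbig : 1 ≤ t ^ (p * η) * (Q * X * Yk ^ p) :=
          one_le_mul_of_one_le_of_one_le (Real.one_le_rpow ht1 (by positivity))
            (one_le_mul_of_one_le_of_one_le (one_le_mul_of_one_le_of_one_le hQ1 hX1) hYkp1)
        have g1 : 1 + K ^ p ≤ t ^ (p * η) * (Q * X * Yk ^ p) * (M0 * G) := by
          have : 1 + K ^ p ≤ M0 * G := by
            have : G ≤ M0 * G := le_mul_of_one_le_left (by linarith) hM01
            rw [hG] at this ⊢
            linarith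
          exact this.trans (le_mul_of_one_le_left (by positivity) hbig)
        have g2 : t ^ (p * η) * E ≤ t ^ (p * η) * (Q * X * Yk ^ p) * (M0 * G) := by
          calc t ^ (p * η) * E ≤ t ^ (p * η) * (Q * X * Yk ^ p * (M0 * G)) :=
                mul_le_mul_of_nonneg_left hE (by positivity)
            _ = _ := by ring
        linarith
    _ = (A ^ p * 4 ^ p * (2 * M0)) * (Yk ^ p * t ^ (p * η) * (Q * X * Yk ^ p)) * G := by ring
    _ ≤ C1 * (Yk ^ p * t ^ (p * η) * (Q * X * Yk ^ p)) * (3 * D * t ^ ((q + 3) * (4 * η)) * (1 + FI + IZ)) := by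
        have g1 : A ^ p * 4 ^ p * (2 * M0) ≤ C1 := by
          rw [hC1]
          refine mul_le_mul_of_nonneg_left ?_ (by positivity)
          linarith
        have g2 : G ≤ 3 * D * t ^ ((q + 3) * (4 * η)) * (1 + FI + IZ) := by
          set τ := t ^ ((q + 3) * (4 * η)) with hτ
          have hτ1 : 1 ≤ τ := Real.one_le_rpow ht1 (by positivity)
          have hDτ : 1 ≤ D * τ := one_le_mul_of_one_le_of_one_le hD1 hτ1
          have g3 : 1 + FI ≤ D * τ * (1 + FI) := le_mul_of_one_le_left (by linarith) hDτ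
          have g4 : 2 * D * τ * (1 + IZ) ≤ 2 * (D * τ) * (1 + FI + IZ) := by
            have : 2 * (D * τ) * (1 + IZ) ≤ 2 * (D * τ) * (1 + FI + IZ) :=
              mul_le_mul_of_nonneg_left (by linarith) (by positivity)
            linarith
          have g5 : D * τ * (1 + FI) ≤ D * τ * (1 + FI + IZ) := mul_le_mul_of_nonneg_left (by linarith) (by positivity)
          rw [hG]
          linarith
        gcongr
    _ = (C1 * (3 * D)) * (Yk ^ p * t ^ (p * η) * (Q * X * Yk ^ p) * t ^ ((q + 3) * (4 * η))) * (1 + FI + IZ) := by ring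
    _ ≤ t ^ η * (Yk ^ p * t ^ (p * η) * (Q * X * Yk ^ p) * t ^ ((q + 3) * (4 * η))) * (1 + FI + IZ) := by
        gcongr
    _ ≤ t ^ ε * (1 + FI + IZ) := by
        refine mul_le_mul_of_nonneg_right ?_ (by linarith)
        rw [hYkp, hQ, hX, ← Real.rpow_add ht0, ← Real.rpow_add ht0, ← Real.rpow_add ht0, ← Real.rpow_add ht0,
          ← Real.rpow_add ht0, ← Real.rpow_add ht0]
        apply Real.rpow_le_rpow_of_exponent_le ht1
        rw [← hηc, hc]
        nlinarith

end Pool.Agent.H60.ME
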