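import Pool.Agent.H60.ME.Nik
import Pool.Agent.H60.ZA.Loc

/-! Suprema over windows. -/

set_option autoImplicit false

open Complex MeasureTheory Finset Filter Topology
open Pool.Agent.R747.TL Pool.Agent.TH804.SS Pool.Agent.H60.WM

namespace Pool.Agent.H60.ME

lemma add_rpow_le {a b q : ℝ} (ha : 0 ≤ a) (hb : 0 ≤ b) (hq : 0 ≤ q) : (a + b) ^ q ≤ 2 ^ q * (a ^ q + b ^ q) := by
  have h2 : (0 : ℝ) ≤ 2 ^ q := by positivity
  have haq := Real.rpow_nonneg ha q
  have hbq := Real.rpow_nonneg hb q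
  rcases le_total a b with h | h
  · calc (a + b) ^ q ≤ (2 * b) ^ q := Real.rpow_le_rpow (by positivity) (by linarith) hq
      _ = 2 ^ q * b ^ q := Real.mul_rpow (by norm_num) hb
      _ ≤ _ := mul_le_mul_of_nonneg_left (by linarith) h2
  · calc (a + b) ^ q ≤ (2 * a) ^ q := Real.rpow_le_rpow (by positivity) (by linarith) hq
      _ = 2 ^ q * a ^ q := Real.mul_rpow (by norm_num) ha
      _ ≤ _ := mul_le_mul_of_nonneg_left (by linarith) h2

theorem rb_local {η : ℝ} (hη : 0 < η) (hη1 : η ≤ 1 / 2) : ∀ᶠ t : ℝ in atTop, ∀ V H : ℝ, 0 ≤ V → V ≤ t / 4 → 0 ≤ H →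
    (∀ x : ℝ, |x| ≤ V + t ^ η → ‖zl (t + x)‖ ≤ H) → ∀ s : ℂ, 1 / 2 ≤ s.re → |s.im - t| ≤ V →
      ‖riemannZeta s‖ ≤ 41 * (1 + H) := by
  have hgr : ∀ᶠ t : ℝ in atTop, t ^ (1 : ℝ) * (96 * Real.exp 3) * Real.exp (-(1 * t ^ (2 * η))) ≤ 1 :=
    ev_exp (by positivity) one_pos
  filter_upwards [hgr, eventually_ge_atTop (16 : ℝ)] with t hg ht16
  intro V H hV hVt hH hline s hs1 hs2
  have ht0 : 0 < t := by linarith
  have htη : t ^ η ≤ t / 4 := by
    have h1 : t ^ η ≤ t ^ (1 / 2 : ℝ) := Real.rpow_le_rpow_of_exponent_le (by linarith) hη1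
    have h2 : t ^ (1 / 2 : ℝ) * t ^ (1 / 2 : ℝ) = t := by rw [← Real.rpow_add ht0]; norm_num
    have h3 : 4 ≤ t ^ (1 / 2 : ℝ) := by
      calc (4 : ℝ) = 16 ^ (1 / 2 : ℝ) := by
            rw [show (16 : ℝ) = 4 ^ (2 : ℝ) by norm_num, ← Real.rpow_mul (by norm_num)]; norm_num
        _ ≤ _ := Real.rpow_le_rpow (by norm_num) ht16 (by norm_num)
    nlinarith
  set W := t ^ η with hW
  have hW0 : 0 < W := by positivity
  rcases le_or_gt 2 s.re with hx2 | hx2
  · have c1 := Pool.Agent.W188.Ray.norm_zeta_le_two (s := s) hx2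
    linarith
  have hs2' := abs_le.1 hs2
  set τ := s.im with hτ
  set f : ℂ → ℂ := fun z => riemannZeta z * cexp ((z - (1 / 2 + (τ : ℂ) * I)) ^ 2) with hf
  have hnorm : ∀ z : ℂ, ‖f z‖ = ‖riemannZeta z‖ * Real.exp ((z.re - 1 / 2) ^ 2 - (z.im - τ) ^ 2) := by
    intro z
    simp only [hf]
    rw [norm_mul, Complex.norm_exp]
    congr 2
    rw [sq, mul_re]
    simp
    ring
  set U : Set ℂ := Set.Ioo (1 / 2 : ℝ) 2 ×ℂ Set.Ioo (τ - W) (τ + W) with hU
  have hcl : closure U = Set.Icc (1 / 2 : ℝ) 2 ×ℂ Set.Icc (τ - W) (τ + W) := by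
    rw [hU, Complex.closure_reProdIm, closure_Ioo (by norm_num), closure_Ioo (by linarith)]
  have hfr : ∀ z ∈ frontier U, (1 / 2 ≤ z.re ∧ z.re ≤ 2 ∧ τ - W ≤ z.im ∧ z.im ≤ τ + W) ∧
      (z.re = 1 / 2 ∨ z.re = 2 ∨ z.im = τ - W ∨ z.im = τ + W) := by
    intro z hz
    have hUo : IsOpen U := isOpen_Ioo.reProdIm isOpen_Ioo
    rw [frontier, hcl, hUo.interior_eq] at hz
    obtain ⟨⟨hz1, hz2⟩, hz3⟩ := hz
    have a1 : z.re ∈ Set.Icc (1 / 2 : ℝ) 2 := hz1
    have a2 : z.im ∈ Set.Icc (τ - W) (τ + W) := hz2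
    refine ⟨⟨a1.1, a1.2, a2.1, a2.2⟩, ?_⟩
    by_contra hcon
    push Not at hcon
    apply hz3
    exact ⟨⟨lt_of_le_of_ne a1.1 (Ne.symm hcon.1), lt_of_le_of_ne a1.2 hcon.2.1⟩,
      ⟨lt_of_le_of_ne a2.1 (Ne.symm hcon.2.2.1), lt_of_le_of_ne a2.2 hcon.2.2.2⟩⟩
  have hbdd : Bornology.IsBounded U := by
    apply Bornology.IsBounded.reProdIm (Metric.isBounded_Ioo _ _) (Metric.isBounded_Ioo _ _)
  have hd : DiffContOnCl ℂ f U := by
    apply DifferentiableOn.diffContOnCl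
    intro z hz
    rw [hcl] at hz
    have a2 : z.im ∈ Set.Icc (τ - W) (τ + W) := hz.2
    have b2 : 0 < z.im := by linarith [a2.1]
    apply DifferentiableAt.differentiableWithinAt
    simp only [hf]
    apply DifferentiableAt.mul
    · exact zdiff b2
    · fun_prop
  have he3 : Real.exp 3 < 20.1 := by
    have h1 := Real.exp_one_lt_d9
    have h2 : Real.exp 3 = Real.exp 1 ^ 3 := by rw [← Real.exp_nat_mul]; norm_num
    rw [h2]
    calc Real.exp 1 ^ 3 ≤ 2.7182818286 ^ 3 := pow_le_pow_left₀ (Real.exp_pos _).le h1.le 3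
      _ < 20.1 := by norm_num
  have hboundary : ∀ z ∈ frontier U, ‖f z‖ ≤ 41 * (1 + H) := by
    intro z hz
    obtain ⟨⟨a1, a2, a3, a4⟩, hcase⟩ := hfr z hz
    rw [hnorm]
    have hex : (z.re - 1 / 2) ^ 2 ≤ 3 := by nlinarith
    rcases hcase with hc | hc | hc
    · have e : z = 1 / 2 + ((t + (z.im - t) : ℝ) : ℂ) * I := by
        apply Complex.ext <;> simp [hc]
      have h1 := hline (z.im - t) (by rw [abs_le]; constructor <;> linarith)
      have e1 : riemannZeta z = zl (t + (z.im - t)) := by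
        unfold zl
        rw [← e]
      rw [e1, hc]
      have h2 : Real.exp ((1 / 2 - 1 / 2) ^ 2 - (z.im - τ) ^ 2) ≤ 1 := by
        rw [Real.exp_le_one_iff]; nlinarith [sq_nonneg (z.im - τ)]
      calc ‖zl (t + (z.im - t))‖ * Real.exp ((1 / 2 - 1 / 2) ^ 2 - (z.im - τ) ^ 2)
          ≤ H * 1 := mul_le_mul h1 h2 (Real.exp_pos _).le hH
        _ ≤ _ := by linarith
    · have h1 : ‖riemannZeta z‖ ≤ 2 := Pool.Agent.W188.Ray.norm_zeta_le_two (s := z) (by rw [hc])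
      have h2 : Real.exp ((z.re - 1 / 2) ^ 2 - (z.im - τ) ^ 2) ≤ Real.exp 3 := by
        apply Real.exp_le_exp.2
        nlinarith [sq_nonneg (z.im - τ)]
      calc _ ≤ 2 * Real.exp 3 := mul_le_mul h1 h2 (Real.exp_pos _).le (by norm_num)
        _ ≤ _ := by linarith
    · have h1 : ‖riemannZeta z‖ ≤ 6 * (2 * t + 2) := by
        have c1 := Pool.Agent.H388LH.zeta_growth (s := z) (by linarith) (by linarith)
        have c3 := Complex.norm_le_abs_re_add_abs_im z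
        rw [abs_of_pos (by linarith : 0 < z.re), abs_of_pos (by linarith : 0 < z.im)] at c3
        linarith
      have hsq : (z.im - τ) ^ 2 = t ^ (2 * η) := by
        have : W ^ 2 = t ^ (2 * η) := by
          rw [hW, ← Real.rpow_natCast, ← Real.rpow_mul ht0.le]; congr 1; push_cast; ring
        rcases hc with hc | hc <;> rw [hc, ← this] <;> ring
      have h2 : Real.exp ((z.re - 1 / 2) ^ 2 - (z.im - τ) ^ 2) ≤ Real.exp 3 * Real.exp (-(1 * t ^ (2 * η))) := by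
        rw [← Real.exp_add]
        apply Real.exp_le_exp.2
        rw [hsq]; linarith
      calc _ ≤ 6 * (2 * t + 2) * (Real.exp 3 * Real.exp (-(1 * t ^ (2 * η)))) :=
            mul_le_mul h1 h2 (Real.exp_pos _).le (by positivity)
        _ ≤ 6 * (16 * t) * (Real.exp 3 * Real.exp (-(1 * t ^ (2 * η)))) := by
            gcongr; linarith
        _ = t ^ (1 : ℝ) * (96 * Real.exp 3) * Real.exp (-(1 * t ^ (2 * η))) := by
            rw [Real.rpow_one]; ring
        _ ≤ 1 := hg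
        _ ≤ _ := by linarith
  have hmax := Complex.norm_le_of_forall_mem_frontier_norm_le hbdd hd hboundary
    (z := s) (by
      rw [hcl]
      exact ⟨⟨hs1, hx2.le⟩, ⟨by linarith, by linarith⟩⟩)
  rw [hnorm] at hmax
  have h3 : 1 ≤ Real.exp ((s.re - 1 / 2) ^ 2 - (s.im - τ) ^ 2) := by
    apply Real.one_le_exp
    rw [hτ, sub_self]
    nlinarith [sq_nonneg (s.re - 1 / 2)]
  calc ‖riemannZeta s‖ = ‖riemannZeta s‖ * 1 := by ring
    _ ≤ _ := mul_le_mul_of_nonneg_left h3 (norm_nonneg _)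
    _ ≤ _ := hmax

/-- the sections as trigonometric polynomials -/
lemma sec_tp {t : ℝ} (N : ℕ) (x : ℝ) : sec N (1 / 2 + ((t + x : ℝ) : ℂ) * I) =
    tp (ix 1 N) (ZA.cs 1 (1 / 2) t) (ll 1) (x : ℂ) := by
  rw [← ZA.sec_pow, pow_one]
  congr 1
  push_cast
  ring

lemma nb_ix (k N : ℕ) {σ : ℝ} (hσ : 0 ≤ σ) (t : ℝ) : nb (ix k N) (ZA.cs k σ t) ≤ (N : ℝ) ^ k := by
  unfold nb
  calc _ ≤ ∑ n ∈ ix k N, (1 : ℝ) := Finset.sum_le_sum fun n _ => ZA.cs_norm k hσ t n
    _ = ((ix k N).card : ℝ) := by simp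
    _ = (N : ℝ) ^ k := by unfold ix; simp

lemma ll_le (k N : ℕ) {t : ℝ} (ht : 1 ≤ t) (hN : (N : ℝ) ≤ t ^ 2) {n : Fin k → ℕ} (hn : n ∈ ix k N) :
    ll k n ≤ 2 * k * Real.log t := by
  unfold ix at hn
  rw [Fintype.mem_piFinset] at hn
  unfold ll
  calc ∑ i, Real.log ((n i : ℝ) + 1) ≤ ∑ _i : Fin k, 2 * Real.log t := by
        refine Finset.sum_le_sum fun i _ => ?_
        have h6 := Finset.mem_range.1 (hn i)
        have h7 : ((n i : ℝ) + 1) ≤ N := by exact_mod_cast h6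
        have h8 : Real.log ((n i : ℝ) + 1) ≤ Real.log (t ^ 2) :=
          Real.log_le_log (by positivity) (h7.trans hN)
        rw [Real.log_pow] at h8
        exact_mod_cast h8
    _ = _ := by simp; ring

lemma zl_cont' {a : ℝ} : Continuous fun x : ℝ => zl (a + x) := zl_cont.comp (by fun_prop)

theorem sup_line {q η : ℝ} (hq : 1 ≤ q) (hη : 0 < η) (hη1 : η ≤ 1 / 2) : ∀ᶠ t : ℝ in atTop, ∀ x0 : ℝ, |x0| ≤ t ^ η →
    ‖zl (t + x0)‖ ^ q ≤ t ^ ((q + 3) * η) * (1 + ∫ y in (-(2 * t ^ η))..(2 * t ^ η), ‖zl (t + y)‖ ^ q) := by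
  have hq0 : 0 < q := by linarith
  filter_upwards [nik (ι := Fin 1 → ℕ) (A := 2) (by norm_num) hq hη, sec_close, eventually_ge_atTop (16 : ℝ),
    ev_const (K := 2 ^ q * (10 ^ q + 2 ^ q * (1 + 10 ^ q * 2))) hη, ev_const (K := 1) hη] with t h1 h2 ht16 h4 h5
  intro x0 hx0
  have ht0 : 0 < t := by linarith
  have hX : t ^ η ≤ t / 4 := by
    have h1 : t ^ η ≤ t ^ (1 / 2 : ℝ) := Real.rpow_le_rpow_of_exponent_le (by linarith) hη1
    have h2 : t ^ (1 / 2 : ℝ) * t ^ (1 / 2 : ℝ) = t := by rw [← Real.rpow_add ht0]; norm_num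
    have h3 : 4 ≤ t ^ (1 / 2 : ℝ) := by
      calc (4 : ℝ) = 16 ^ (1 / 2 : ℝ) := by
            rw [show (16 : ℝ) = 4 ^ (2 : ℝ) by norm_num, ← Real.rpow_mul (by norm_num)]; norm_num
        _ ≤ _ := Real.rpow_le_rpow (by norm_num) ht16 (by norm_num)
    nlinarith
  set X := t ^ η with hXdef
  have hX0 : 0 < X := by positivity
  set N := ⌊t ^ 2⌋₊ with hN
  have hNt : (N : ℝ) ≤ t ^ 2 := Nat.floor_le (by positivity)
  set g : ℝ → ℂ := fun x => tp (ix 1 N) (ZA.cs 1 (1 / 2) t) (ll 1) (x : ℂ) with hg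
  have hgc : Continuous g := tp_cont' _ _ _
  have hclose : ∀ x : ℝ, |x| ≤ t / 2 → ‖zl (t + x) - g x‖ ≤ 10 := by
    intro x hx
    have h3 := h2 (1 / 2 + ((t + x : ℝ) : ℂ) * I) (by simp) (by simp; linarith) (by simpa using hx)
    rw [sec_tp] at h3
    exact h3
  have hb1 : ∀ x : ℝ, |x| ≤ t / 2 → ‖zl (t + x)‖ ^ q ≤ 2 ^ q * (10 ^ q + ‖g x‖ ^ q) := by
    intro x hx
    have h3 : ‖zl (t + x)‖ ≤ 10 + ‖g x‖ := by
      have := norm_sub_norm_le (zl (t + x)) (g x)
      linarith [hclose x hx]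
    exact (Real.rpow_le_rpow (norm_nonneg _) h3 hq0.le).trans (add_rpow_le (by norm_num) (norm_nonneg _) hq0.le)
  have hb2 : ∀ x : ℝ, |x| ≤ t / 2 → ‖g x‖ ^ q ≤ 2 ^ q * (10 ^ q + ‖zl (t + x)‖ ^ q) := by
    intro x hx
    have h3 : ‖g x‖ ≤ 10 + ‖zl (t + x)‖ := by
      have := norm_sub_norm_le (g x) (zl (t + x))
      rw [norm_sub_rev] at this
      linarith [hclose x hx]
    exact (Real.rpow_le_rpow (norm_nonneg _) h3 hq0.le).trans (add_rpow_le (by norm_num) (norm_nonneg _) hq0.le)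
  have hnik := h1 (ix 1 N) (ZA.cs 1 (1 / 2) t) (ll 1) (by
      intro n hn
      rw [abs_of_nonneg (ll_nonneg 1 n)]
      have := ll_le 1 N (by linarith) hNt hn
      simpa using this)
    (by
      refine (nb_ix 1 N (by norm_num) t).trans ?_
      rw [pow_one, Real.rpow_two]
      exact hNt) x0
  have hzq : Continuous fun y : ℝ => ‖zl (t + y)‖ ^ q :=
    (zl_cont'.norm).rpow_const fun _ => Or.inr hq0.le
  have hx0' := abs_le.1 hx0
  set IZ : ℝ := ∫ y in (-(2 * X))..(2 * X), ‖zl (t + y)‖ ^ q with hIZ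
  have hIZ0 : 0 ≤ IZ := intervalIntegral.integral_nonneg (by linarith) fun y _ => by positivity
  have hint : ∫ y in (x0 - X)..(x0 + X), ‖g y‖ ^ q ≤ 2 ^ q * (10 ^ q * (2 * X) + IZ) := by
    have hgq : Continuous fun y : ℝ => ‖g y‖ ^ q := hgc.norm.rpow_const fun _ => Or.inr hq0.le
    calc ∫ y in (x0 - X)..(x0 + X), ‖g y‖ ^ q
        ≤ ∫ y in (x0 - X)..(x0 + X), 2 ^ q * (10 ^ q + ‖zl (t + y)‖ ^ q) := by
          refine intervalIntegral.integral_mono_on (by linarith) (hgq.intervalIntegrable _ _)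
            ((continuous_const.mul (continuous_const.add hzq)).intervalIntegrable _ _) fun y hy => ?_
          refine hb2 y ?_
          rw [abs_le]; constructor <;> linarith [hy.1, hy.2]
      _ = 2 ^ q * (10 ^ q * (2 * X) + ∫ y in (x0 - X)..(x0 + X), ‖zl (t + y)‖ ^ q) := by
          rw [intervalIntegral.integral_const_mul, intervalIntegral.integral_add (intervalIntegrable_const) (hzq.intervalIntegrable _ _),
            intervalIntegral.integral_const, smul_eq_mul]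
          ring
      _ ≤ _ := by
          refine mul_le_mul_of_nonneg_left (add_le_add le_rfl ?_) (by positivity)
          refine intervalIntegral.integral_mono_interval (by linarith) (by linarith) (by linarith)
            (Filter.Eventually.of_forall fun y => by positivity) (hzq.intervalIntegrable _ _)
  have hmain : ‖g x0‖ ^ q ≤ t ^ ((q + 1) * η) * (1 + 2 ^ q * (10 ^ q * (2 * X) + IZ)) := by
    refine hnik.trans ?_
    gcongr
  have hP1 : 1 ≤ t ^ ((q + 1) * η) := Real.one_le_rpow (by linarith) (by positivity)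
  have h2q : (1 : ℝ) ≤ 2 ^ q := Real.one_le_rpow (by norm_num) hq0.le
  have h10q : (0 : ℝ) < 10 ^ q := by positivity
  calc ‖zl (t + x0)‖ ^ q ≤ 2 ^ q * (10 ^ q + ‖g x0‖ ^ q) := hb1 x0 (by linarith)
    _ ≤ 2 ^ q * (10 ^ q + t ^ ((q + 1) * η) * (1 + 2 ^ q * (10 ^ q * (2 * X) + IZ))) := by gcongr
    _ ≤ t ^ ((q + 1) * η) * (X * ((2 ^ q * (10 ^ q + 2 ^ q * (1 + 10 ^ q * 2))) * (1 + IZ))) := by
        set Q := t ^ ((q + 1) * η) with hQ
        set a := (2 : ℝ) ^ q with ha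
        set b := (10 : ℝ) ^ q with hb
        have e1 : b ≤ Q * (X * (b * (1 + IZ))) := by
          have : 1 ≤ Q * (X * (1 + IZ)) :=
            one_le_mul_of_one_le_of_one_le hP1 (one_le_mul_of_one_le_of_one_le h5 (by linarith))
          nlinarith
        have e2 : 1 + a * (b * (2 * X) + IZ) ≤ X * (a * (1 + b * 2) * (1 + IZ)) := by
          have g1 : 1 + a * IZ ≤ X * (a * (1 + IZ)) := by
            have : 1 * (a * (1 + IZ)) ≤ X * (a * (1 + IZ)) :=
              mul_le_mul_of_nonneg_right h5 (by positivity)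
            nlinarith
          have g2 : a * (b * (2 * X)) ≤ X * (a * (b * 2) * (1 + IZ)) := by
            have : X * (a * (b * 2)) * 1 ≤ X * (a * (b * 2)) * (1 + IZ) :=
              mul_le_mul_of_nonneg_left (by linarith) (by positivity)
            nlinarith
          nlinarith
        calc a * (b + Q * (1 + a * (b * (2 * X) + IZ)))
            ≤ a * (Q * (X * (b * (1 + IZ))) + Q * (X * (a * (1 + b * 2) * (1 + IZ)))) := by gcongr
          _ = _ := by ring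
    _ ≤ t ^ ((q + 1) * η) * (X * (X * (1 + IZ))) := by gcongr
    _ = t ^ ((q + 3) * η) * (1 + IZ) := by
        rw [← mul_assoc X, ← mul_assoc, hXdef, ← Real.rpow_add ht0, ← Real.rpow_add ht0]
        congr 2; ring

end Pool.Agent.H60.ME
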