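import Pool.Agent.H60.ME.Int

/-! Moments of zeta are bounded by moments of averages. -/

set_option autoImplicit false

open Complex MeasureTheory Finset Filter Topology
open Pool.Agent.R747.TL Pool.Agent.TH804.SS Pool.Agent.H60.WM Pool.Agent.H60.ZA

namespace Pool.Agent.H60.ME

lemma iter_abs {E M : ℝ → ℝ → ℝ} {V θ L U : ℝ} (hV : 0 ≤ V) (hθ0 : 0 ≤ θ) (hθ : θ ≤ 1 / 2)
    (hM0 : ∀ a b, a ≤ b → 0 ≤ M a b) (hMm : ∀ a b W, 0 ≤ W → a ≤ b → M a b ≤ M (a - W) (b + W))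
    (hE : ∀ a b, a ≤ b → L ≤ a → b ≤ U → E a b ≤ M (a - V) (b + V) + θ * E (a - V) (b + V)) (n : ℕ) :
    ∀ a b, a ≤ b → L ≤ a - n * V → b + n * V ≤ U →
      E a b ≤ 2 * M (a - n * V) (b + n * V) + θ ^ n * E (a - n * V) (b + n * V) := by
  induction n with
  | zero =>
    intro a b hab _ _
    have := hM0 a b hab
    simp only [Nat.cast_zero, zero_mul, sub_zero, add_zero, pow_zero, one_mul]
    linarith
  | succ n ih =>
    intro a b hab h1 h2
    push_cast at h1 h2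
    have hnV : 0 ≤ (n : ℝ) * V := by positivity
    have e1 : a - V - n * V = a - ((n + 1 : ℕ) : ℝ) * V := by push_cast; ring
    have e2 : b + V + n * V = b + ((n + 1 : ℕ) : ℝ) * V := by push_cast; ring
    have h3 := hE a b hab (by linarith) (by linarith)
    have h4 := ih (a - V) (b + V) (by linarith) (by linarith) (by linarith)
    have h5 := hMm (a - V) (b + V) (n * V) hnV (by linarith)
    rw [e1, e2] at h4 h5
    have h6 : 0 ≤ M (a - ((n + 1 : ℕ) : ℝ) * V) (b + ((n + 1 : ℕ) : ℝ) * V) := by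
      apply hM0; push_cast; linarith
    have h7 := mul_le_mul_of_nonneg_left h4 hθ0
    have h8 : θ * (2 * M (a - ((n + 1 : ℕ) : ℝ) * V) (b + ((n + 1 : ℕ) : ℝ) * V)) ≤
        M (a - ((n + 1 : ℕ) : ℝ) * V) (b + ((n + 1 : ℕ) : ℝ) * V) := by nlinarith
    rw [pow_succ]
    linarith

lemma zl_growth (t : ℝ) : ‖zl t‖ ≤ 9 * (1 + |t|) := by
  have h := Pool.Agent.H388LH.zeta_growth' (s := 1 / 2 + (t : ℂ) * I) (by simp; norm_num) (by simp; norm_num)
  simpa [zl] using h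

lemma zl_int_growth {T q a b : ℝ} (hT : 9 ≤ T) (hq : 0 ≤ q) (ha : 0 ≤ a) (hab : a ≤ b) (hb : b ≤ 4 * T) :
    ∫ t in a..b, ‖zl t‖ ^ q ≤ T ^ (2 + 3 * q) := by
  have hT0 : 0 < T := by linarith
  have hT1 : 1 ≤ T := by linarith
  have h1 : ∀ t ∈ Set.Icc a b, ‖zl t‖ ^ q ≤ T ^ (3 * q) := by
    intro t ht
    have h2 : ‖zl t‖ ≤ T ^ (3 : ℝ) := by
      refine (zl_growth t).trans ?_
      have h3 : |t| ≤ 4 * T := by rw [abs_of_nonneg (ha.trans ht.1)]; exact ht.2.trans hb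
      have h4 : T ^ (3 : ℝ) = T * T * T := by
        rw [show (3 : ℝ) = ((3 : ℕ) : ℝ) by norm_num, Real.rpow_natCast]; ring
      rw [h4]
      have h5 : 81 * T ≤ T * T * T := by nlinarith [mul_nonneg hT0.le hT0.le]
      linarith
    calc ‖zl t‖ ^ q ≤ (T ^ (3 : ℝ)) ^ q := Real.rpow_le_rpow (norm_nonneg _) h2 hq
      _ = T ^ (3 * q) := by rw [← Real.rpow_mul hT0.le]
  have hf : Continuous fun y : ℝ => ‖zl y‖ ^ q := zl_cont.norm.rpow_const fun _ => Or.inr hq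
  calc ∫ t in a..b, ‖zl t‖ ^ q ≤ ∫ _t in a..b, T ^ (3 * q) :=
        intervalIntegral.integral_mono_on hab (hf.intervalIntegrable _ _) (by simp) h1
    _ = (b - a) * T ^ (3 * q) := by rw [intervalIntegral.integral_const, smul_eq_mul]
    _ ≤ T ^ (2 : ℝ) * T ^ (3 * q) := by
        refine mul_le_mul_of_nonneg_right ?_ (by positivity)
        have : T ^ (2 : ℝ) = T * T := by
          rw [show (2 : ℝ) = ((2 : ℕ) : ℝ) by norm_num, Real.rpow_natCast]; ring
        rw [this]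
        nlinarith
    _ = _ := by rw [← Real.rpow_add hT0]

theorem upper {m : ℕ} {μ : Fin m → Measure ℂ} {w : Fin m → ℂ → ℂ} {R : ℝ} (hR : 0 ≤ R)
    (hμ : ∀ j, Good (μ j) (w j) R) (hS : Slow μ w) (P : Polynomial ℂ) (hP : 0 < P.natDegree)
    {p ε : ℝ} (hp : 1 ≤ p) (hε : 0 < ε) (hε1 : ε ≤ 1 / 2) : ∀ᶠ T : ℝ in atTop, ∀ a b : ℝ, T ≤ a → a ≤ b → b ≤ 2 * T →
      ∫ t in a..b, ‖zl t‖ ^ (P.natDegree * p) ≤
        T ^ ε * (1 + (b - a) + ∑ j, ∫ y in (a - T ^ ε)..(b + T ^ ε), ‖Fl (μ j) (w j) P y‖ ^ p) := by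
  set k := P.natDegree with hk
  have hk1 : (1 : ℝ) ≤ k := by exact_mod_cast hP
  have hp0 : 0 < p := by linarith
  set e : ℝ := ε / (12 * k + 20) with he
  have hc0 : (0 : ℝ) < 12 * k + 20 := by positivity
  have he0 : 0 < e := by rw [he]; positivity
  have hec : e * (12 * k + 20) = ε := by rw [he]; field_simp
  have hke : 0 < (k : ℝ) * e := by positivity
  have he1 : e ≤ 1 / 2 := by nlinarith
  obtain ⟨N, hN⟩ := exists_nat_ge (2 * (2 + 3 * (k * p)) / e)
  have hN' : 2 + 3 * (k * p) ≤ (e / 2) * N := by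
    rw [div_le_iff₀ he0] at hN; linarith
  filter_upwards [one_step hR hμ hS P hP hp he0 he1, ev_const (K := 16) (η := e / 2) (by positivity),
    ev_const (K := (N : ℝ)) he0, eventually_ge_atTop (4 * (R + 1) + 64)] with T h1 h2 h3 hT
  intro a b ha hab hb
  have hT0 : 0 < T := by linarith
  have hT1 : 1 ≤ T := by linarith
  set V : ℝ := (4 * T) ^ e with hV
  have hV1 : 1 ≤ V := Real.one_le_rpow (by linarith) he0.le
  have hV0 : 0 < V := by linarith
  have hTe : T ^ e ≤ V := Real.rpow_le_rpow hT0.le (by linarith) he0.le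
  have hVT : V ≤ T ^ (2 * e) := by
    calc V = 4 ^ e * T ^ e := Real.mul_rpow (by norm_num) hT0.le
      _ ≤ T ^ e * T ^ e := mul_le_mul_of_nonneg_right (Real.rpow_le_rpow (by norm_num) (by linarith) he0.le) (by positivity)
      _ = T ^ (2 * e) := by rw [← Real.rpow_add hT0]; ring_nf
  have hNV : N * V ≤ T ^ (3 * e) := by
    calc (N : ℝ) * V ≤ T ^ e * T ^ (2 * e) := mul_le_mul h3 hVT hV0.le (by positivity)
      _ = T ^ (3 * e) := by rw [← Real.rpow_add hT0]; ring_nf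
  have hNVε : (N : ℝ) * V ≤ T ^ ε := hNV.trans (Real.rpow_le_rpow_of_exponent_le hT1 (by nlinarith))
  have hεT : T ^ ε ≤ T / 4 := by
    have h1 : T ^ ε ≤ T ^ (1 / 2 : ℝ) := Real.rpow_le_rpow_of_exponent_le hT1 hε1
    have h2 : T ^ (1 / 2 : ℝ) * T ^ (1 / 2 : ℝ) = T := by rw [← Real.rpow_add hT0]; norm_num
    have h3 : 4 ≤ T ^ (1 / 2 : ℝ) := by
      by_contra h
      push Not at h
      have h5 : 0 ≤ T ^ (1 / 2 : ℝ) := by positivity
      nlinarith
    nlinarith [Real.rpow_nonneg hT0.le (1 / 2 : ℝ)]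
  have hNV0 : 0 ≤ (N : ℝ) * V := by positivity
  have hf : Continuous fun y : ℝ => ‖zl y‖ ^ (k * p) := zl_cont.norm.rpow_const fun _ => Or.inr (by positivity)
  have hf0 : ∀ y : ℝ, 0 ≤ ‖zl y‖ ^ (k * p) := fun y => by positivity
  have hF : ∀ j, Continuous fun y : ℝ => ‖Fm (μ j) (w j) P R y‖ ^ p := fun j =>
    (Fm_cont (hμ j) P).norm.rpow_const fun _ => Or.inr hp0.le
  have hF0 : ∀ j, ∀ y : ℝ, 0 ≤ ‖Fm (μ j) (w j) P R y‖ ^ p := fun j y => by positivity
  have hSm : ∀ a b c d : ℝ, c ≤ a → a ≤ b → b ≤ d → (∑ j, ∫ y in a..b, ‖Fm (μ j) (w j) P R y‖ ^ p) ≤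
      ∑ j, ∫ y in c..d, ‖Fm (μ j) (w j) P R y‖ ^ p := fun a b c d h1 h2 h3 =>
    Finset.sum_le_sum fun j _ => int_mono_set (hF j) (hF0 j) h1 h2 h3
  have hS0 : ∀ a b : ℝ, a ≤ b → 0 ≤ ∑ j, ∫ y in a..b, ‖Fm (μ j) (w j) P R y‖ ^ p := fun a b hab =>
    Finset.sum_nonneg fun j _ => intervalIntegral.integral_nonneg hab fun y _ => hF0 j y
  have hVk : 0 < V ^ (3 * k) := by positivity
  have main := iter_abs (E := fun a b => ∫ t in a..b, ‖zl t‖ ^ (k * p))
    (M := fun a b => 3 * V ^ (3 * k) * (b - a) + 2 * V ^ 2 * ∑ j, ∫ y in a..b, ‖Fm (μ j) (w j) P R y‖ ^ p)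
    (V := V) (θ := 2 / V) (L := T / 2) (U := 4 * T) hV0.le (by positivity)
    (by
      rw [div_le_iff₀ hV0]
      have : (4 : ℝ) ≤ V := by
        calc (4 : ℝ) ≤ T ^ (e / 2) := by linarith
          _ ≤ T ^ e := Real.rpow_le_rpow_of_exponent_le hT1 (by linarith)
          _ ≤ V := hTe
      linarith)
    (fun a b hab => add_nonneg (mul_nonneg (by positivity) (by linarith)) (mul_nonneg (by positivity) (hS0 a b hab)))
    (fun a b W hW hab => add_le_add (mul_le_mul_of_nonneg_left (by linarith) (by positivity))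
      (mul_le_mul_of_nonneg_left (hSm a b (a - W) (b + W) (by linarith) hab (by linarith)) (by positivity)))
    (fun a b hab hL hU => by
      have h9 := h1 a b V rfl hL hab hU
      have h10 : 3 * V ^ (3 * k) * (b - a) ≤ 3 * V ^ (3 * k) * (b + V - (a - V)) :=
        mul_le_mul_of_nonneg_left (by linarith) (by positivity)
      linarith) N a b hab (by linarith) (by linarith)
  -- trivial bound for the last term
  have t1 : ∫ t in (a - N * V)..(b + N * V), ‖zl t‖ ^ (k * p) ≤ T ^ (2 + 3 * (k * p)) :=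
    zl_int_growth (by linarith) (by positivity) (by linarith) (by linarith) (by linarith)
  have t2 : (2 / V) ^ N ≤ T ^ (-(2 + 3 * (k * p))) := by
    have h5 : 2 / V ≤ T ^ (-(e / 2)) := by
      rw [div_le_iff₀ hV0, Real.rpow_neg hT0.le]
      have h6 : T ^ (e / 2) * T ^ (e / 2) = T ^ e := by rw [← Real.rpow_add hT0]; ring_nf
      have h7 : 0 < T ^ (e / 2) := by positivity
      rw [inv_mul_eq_div, le_div_iff₀ h7]
      nlinarith
    calc (2 / V) ^ N ≤ (T ^ (-(e / 2))) ^ N := pow_le_pow_left₀ (by positivity) h5 _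
      _ = T ^ (-(e / 2 * N)) := by rw [← Real.rpow_natCast, ← Real.rpow_mul hT0.le]; ring_nf
      _ ≤ _ := Real.rpow_le_rpow_of_exponent_le hT1 (by linarith)
  have t3 : (2 / V) ^ N * ∫ t in (a - N * V)..(b + N * V), ‖zl t‖ ^ (k * p) ≤ 1 := by
    calc _ ≤ T ^ (-(2 + 3 * (k * p))) * T ^ (2 + 3 * (k * p)) :=
          mul_le_mul t2 t1 (intervalIntegral.integral_nonneg (by linarith) fun y _ => hf0 y) (by positivity)
      _ = 1 := by rw [← Real.rpow_add hT0]; simp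
  have t4 : (∑ j, ∫ y in (a - N * V)..(b + N * V), ‖Fm (μ j) (w j) P R y‖ ^ p) ≤
      ∑ j, ∫ y in (a - T ^ ε)..(b + T ^ ε), ‖Fl (μ j) (w j) P y‖ ^ p := by
    refine (hSm _ _ (a - T ^ ε) (b + T ^ ε) (by linarith) (by linarith) (by linarith)).trans (le_of_eq ?_)
    refine Finset.sum_congr rfl fun j _ => ?_
    rw [Fm_int (by linarith) (by linarith)]
  have t5 : 0 ≤ ∑ j, ∫ y in (a - T ^ ε)..(b + T ^ ε), ‖Fl (μ j) (w j) P y‖ ^ p :=
    Finset.sum_nonneg fun j _ => intervalIntegral.integral_nonneg (by linarith) fun y _ => by positivity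
  have t6 : V ^ (3 * k) ≤ T ^ (6 * k * e) := by
    calc V ^ (3 * k) ≤ (T ^ (2 * e)) ^ (3 * k) := pow_le_pow_left₀ hV0.le hVT _
      _ = T ^ (6 * k * e) := by rw [← Real.rpow_natCast, ← Real.rpow_mul hT0.le]; push_cast; ring_nf
  have t7 : V ^ 2 ≤ T ^ (4 * e) := by
    calc V ^ 2 ≤ (T ^ (2 * e)) ^ 2 := pow_le_pow_left₀ hV0.le hVT _
      _ = T ^ (4 * e) := by rw [← Real.rpow_natCast, ← Real.rpow_mul hT0.le]; push_cast; ring_nf
  have hX : 1 ≤ T ^ (3 * e) := Real.one_le_rpow hT1 (by positivity)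
  have t8 : 16 * (T ^ (6 * k * e) * T ^ (3 * e)) ≤ T ^ ε := by
    calc 16 * (T ^ (6 * k * e) * T ^ (3 * e)) ≤ T ^ (e / 2) * (T ^ (6 * k * e) * T ^ (3 * e)) :=
          mul_le_mul_of_nonneg_right h2 (by positivity)
      _ = T ^ (e / 2 + (6 * k * e + 3 * e)) := by rw [Real.rpow_add hT0, Real.rpow_add hT0]
      _ ≤ T ^ ε := Real.rpow_le_rpow_of_exponent_le hT1 (by nlinarith)
  have t9 : 4 * T ^ (4 * e) ≤ T ^ ε := by
    calc 4 * T ^ (4 * e) ≤ T ^ (e / 2) * T ^ (4 * e) := mul_le_mul_of_nonneg_right (by linarith) (by positivity)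
      _ = T ^ (e / 2 + 4 * e) := by rw [← Real.rpow_add hT0]
      _ ≤ T ^ ε := Real.rpow_le_rpow_of_exponent_le hT1 (by nlinarith)
  set A := T ^ (6 * k * e) with hA
  set X := T ^ (3 * e) with hXd
  have hA1 : 1 ≤ A := Real.one_le_rpow hT1 (by positivity)
  set Sg := ∑ j, ∫ y in (a - T ^ ε)..(b + T ^ ε), ‖Fl (μ j) (w j) P y‖ ^ p
  have u1 : V ^ (3 * k) * (b + N * V - (a - N * V)) ≤ A * ((b - a) + 2 * X) := by
    refine mul_le_mul t6 (by linarith) (by linarith) (by positivity)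
  have u2 : A * (b - a) ≤ A * X * (b - a) := by
    refine mul_le_mul_of_nonneg_right ?_ (by linarith)
    exact le_mul_of_one_le_right (by positivity) hX
  have u3 : V ^ 2 * (∑ j, ∫ y in (a - N * V)..(b + N * V), ‖Fm (μ j) (w j) P R y‖ ^ p) ≤ T ^ (4 * e) * Sg :=
    mul_le_mul t7 t4 (hS0 _ _ (by linarith)) (by positivity)
  have u4 : 16 * (A * X) * (1 + (b - a)) ≤ T ^ ε * (1 + (b - a)) := mul_le_mul_of_nonneg_right t8 (by linarith)
  have u5 : 4 * T ^ (4 * e) * Sg ≤ T ^ ε * Sg := mul_le_mul_of_nonneg_right t9 t5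
  have u6 : 1 ≤ A * X := by nlinarith
  have u7 : 0 ≤ A * X * (b - a) := mul_nonneg (by positivity) (by linarith)
  linarith

end Pool.Agent.H60.ME
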